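import Pool.Agent.helper90.FN.CHb
import Pool.Agent.helper72.UT.Bridge
import Pool.Agent.helper72.HP.A7

/-! Module CH: asymptotic equicontinuity of the height profile from the scale lemmas. -/

set_option autoImplicit false

open scoped BigOperators Topology
open Filter MeasureTheory

namespace Pool.Agent.helper90.FN

open Finset
open Pool.Agent.helper72.UT (IsFor dep pth rt fors Reg lz strees treeOf sum_trees prof hgt prof_treeOf
  ustE_eq height_eq mem_fors)
open Pool.Agent.helper20.HP (ind HW W Par cc run lel lst lazyP tmix ustE height vol Setup CZ CP IsKer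
  wd FinalGoal lazyHW_exists)

theorem CH_height {V : Type} [Fintype V] [DecidableEq V] {G : SimpleGraph V} {o : V} {f : V → V}
    (hf : f ∈ fors G {o}) (r : ℕ) : (height (treeOf f) o r : ℝ) = bs o f r 1 := by
  rw [mem_fors] at hf
  rw [height_eq, prof_treeOf hf]
  unfold hgt bs
  refine Finset.sum_congr rfl fun v _ => ?_
  unfold Pool.Agent.helper20.HP.ind
  by_cases h : dep {o} f v = r
  · rw [if_pos h, if_pos (by omega)]
  · rw [if_neg h, if_neg (by omega)]

theorem CH_ustE {V : Type} [Fintype V] [DecidableEq V] (G : SimpleGraph V) (o : V)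
    (F : SimpleGraph V → ℝ) : ustE G F = EF G {o} (fun f => F (treeOf f)) := by
  rw [ustE_eq]
  unfold EF
  rw [sum_trees G o]
  congr 1
  have := sum_trees G o (fun _ => (1 : ℝ))
  simpa using this

theorem CH_two (hSL : SLGoal2) (hSU : SUGoal2) (S : Setup) (hT : Tight S) (h2 : ∀ k, 2 ≤ Fintype.card (S.V k))
    (A ε η : ℝ) (hε : 0 < ε) (hη : 0 < η) : ∃ δ : ℝ, 0 < δ ∧
    ∀ᶠ k in atTop, ustE (S.G k) (fun T => ind (∃ r r' : ℕ,
      (r : ℝ) ≤ A * Real.sqrt (Fintype.card (S.V k)) ∧
      (r' : ℝ) ≤ A * Real.sqrt (Fintype.card (S.V k)) ∧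
      |(r : ℝ) - r'| ≤ δ * Real.sqrt (Fintype.card (S.V k)) ∧
      ε * Real.sqrt (Fintype.card (S.V k)) <
        |(height T (S.o k) r : ℝ) - height T (S.o k) r'|)) ≤ η := by
  choose K hK using fun k => lazyHW_exists (S.G k) (S.conn k) (S.trans k) (h2 k)
  obtain ⟨δ, hδ, hev⟩ := CH_main hSL hSU S hT K hK (2 * max A 1) ε η
    (by linarith [le_max_right A 1]) hε hη
  refine ⟨δ / 2, by positivity, ?_⟩
  filter_upwards [hev] with k hk
  refine le_trans ?_ hk
  rw [CH_ustE (S.G k) (S.o k)]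
  have hn2 : 2 ≤ Fintype.card (S.V k) := h2 k
  have hL1 : 1 ≤ Nat.sqrt (Fintype.card (S.V k)) := Nat.le_sqrt.2 (by omega)
  have hL1R : (1 : ℝ) ≤ Nat.sqrt (Fintype.card (S.V k)) := by exact_mod_cast hL1
  have hs1 : Real.sqrt (Fintype.card (S.V k)) ≤ 2 * Nat.sqrt (Fintype.card (S.V k)) := by
    rw [Real.sqrt_le_left (by positivity)]
    have h3 := Nat.lt_succ_sqrt (Fintype.card (S.V k))
    have h4 : (Fintype.card (S.V k) : ℝ) <
        (Nat.sqrt (Fintype.card (S.V k)) + 1) * (Nat.sqrt (Fintype.card (S.V k)) + 1) := by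
      exact_mod_cast h3
    nlinarith
  have hs2 : (Nat.sqrt (Fintype.card (S.V k)) : ℝ) ≤ Real.sqrt (Fintype.card (S.V k)) := by
    rw [Real.le_sqrt (by positivity) (by positivity), pow_two]
    exact_mod_cast Nat.sqrt_le (Fintype.card (S.V k))
  refine CH_EF_mono _ _ _ _ fun f hf => CH_ind_mono ?_
  rintro ⟨r, r', h3, h4, h5, h6⟩
  have hA : A * Real.sqrt (Fintype.card (S.V k)) ≤
      2 * max A 1 * Nat.sqrt (Fintype.card (S.V k)) := by
    calc A * Real.sqrt (Fintype.card (S.V k)) ≤ max A 1 * Real.sqrt (Fintype.card (S.V k)) :=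
          mul_le_mul_of_nonneg_right (le_max_left _ _) (Real.sqrt_nonneg _)
      _ ≤ max A 1 * (2 * Nat.sqrt (Fintype.card (S.V k))) :=
          mul_le_mul_of_nonneg_left hs1 (le_trans zero_le_one (le_max_right _ _))
      _ = _ := by ring
  refine ⟨r, r', le_trans h3 hA, le_trans h4 hA, ?_, ?_⟩
  · refine le_trans h5 ?_
    calc δ / 2 * Real.sqrt (Fintype.card (S.V k))
        ≤ δ / 2 * (2 * Nat.sqrt (Fintype.card (S.V k))) :=
          mul_le_mul_of_nonneg_left hs1 (by positivity)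
      _ = _ := by ring
  · rw [CH_height hf, CH_height hf] at h6
    exact lt_of_le_of_lt (mul_le_mul_of_nonneg_left hs2 hε.le) h6

theorem CH2 : CH2_stmt := by
  intro hSL hSU S hT A ε η hε hη
  obtain ⟨N, hN⟩ := eventually_atTop.1 (S.card.eventually_ge_atTop 2)
  have hsh : Tendsto (fun k : ℕ => k + N) atTop atTop := tendsto_add_atTop_nat N
  set S' : Setup :=
    { V := fun k => S.V (k + N)
      ft := fun k => S.ft (k + N)
      de := fun k => S.de (k + N)
      G := fun k => S.G (k + N)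
      conn := fun k => S.conn (k + N)
      trans := fun k => S.trans (k + N)
      card := S.card.comp hsh
      θ := S.θ
      A1 := fun k => S.A1 (k + N)
      α := S.α
      α_pos := S.α_pos
      A2 := S.A2.comp hsh
      o := fun k => S.o (k + N) } with hS'
  have hT' : Tight S' := by
    intro ε' hε'
    obtain ⟨Λ, hΛ, hev⟩ := hT ε' hε'
    exact ⟨Λ, hΛ, hsh.eventually hev⟩
  obtain ⟨δ, hδ, hev⟩ := CH_two hSL hSU S' hT' (fun k => hN (k + N) (Nat.le_add_left _ _)) A ε η hε hη
  refine ⟨δ, hδ, ?_⟩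
  obtain ⟨M, hMM⟩ := eventually_atTop.1 hev
  refine eventually_atTop.2 ⟨M + N, fun k hk => ?_⟩
  obtain ⟨j, rfl⟩ : ∃ j, k = j + N := ⟨k - N, by omega⟩
  exact hMM j (by omega)

end Pool.Agent.helper90.FN
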