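import Pool.Agent.helper90.FN.Goals

/-!
Final interface of part D (replaces BGoal, CUGoal, SLGoal, SUGoal, EquiGoal, FuncGoal of Goals.lean):
tightness of the distance of a uniform vertex is a hypothesis (it follows from the convergence of the volume
profile to a limit of total mass one), and the bad start of the skeletons is an event `T` of the tree only.
-/

set_option autoImplicit false

open scoped BigOperators Topology
open Filter MeasureTheory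

namespace Pool.Agent.helper90.FN

open Finset
open Pool.Agent.helper72.UT (IsFor dep pth rt fors Reg lz)
open Pool.Agent.helper20.HP (ind HW W Par cc run lel lst lazyP tmix ustE height vol Setup CZ CP IsKer
  wd FinalGoal)

/-- tightness of the distance of a uniform vertex to the root -/
def Tight (S : Setup) : Prop :=
  ∀ ε : ℝ, 0 < ε → ∃ Λ : ℝ, 0 < Λ ∧ ∀ᶠ k in atTop,
    EF (S.G k) {S.o k} (fun f => ∑ v, ind (Λ * Real.sqrt (Fintype.card (S.V k)) < dep {S.o k} f v))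
      ≤ ε * Fintype.card (S.V k)

/-- the skeleton `D` is good at scale `J` -/
def Good {V : Type} [Fintype V] [DecidableEq V] (K : HW V) (D : Finset V) (J : ℕ) (c C : ℝ) : Prop :=
  Hit K D ⌊(Nat.sqrt (Fintype.card V) : ℝ) * (J : ℝ) ^ (-c)⌋₊ ∧
    (D.card : ℝ) ≤ (J : ℝ) ^ C * Nat.sqrt (Fintype.card V)

/-- PB (part B, helper66): outside an event `T` of small probability (of the tree only) there are skeletons
spanned by at most `J` fixed vertices which are good -/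
def BGoal2 : Prop := ∀ (S : Setup) (K : ∀ k, HW (S.V k)), IsKer S K → Tight S →
  ∃ c C₁ : ℝ, 0 < c ∧ 1 ≤ C₁ ∧ ∀ η : ℝ, 0 < η → ∃ C₂ : ℝ, 0 < C₂ ∧ ∀ᶠ k in atTop,
    ∃ T : (S.V k → S.V k) → Prop, EF (S.G k) {S.o k} (fun f => ind (¬ T f)) ≤ η ∧
    ∀ J : ℕ, 1 ≤ J → (J : ℝ) ≤ (Fintype.card (S.V k) : ℝ) ^ c →
      ∃ l : List (S.V k), l.length ≤ J ∧
        EF (S.G k) {S.o k} (fun f => ind (T f ∧ ¬ Good (K k) (sk {S.o k} f l) J c C₁)) ≤
          C₂ * (J : ℝ) ^ (-c)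

/-- PU (part C, helper57 + helper98): flatness at the unit scale -/
def CUGoal2 : Prop := ∀ (S : Setup) (K : ∀ k, HW (S.V k)), IsKer S K → ∀ A Q ε : ℝ, 0 < ε →
  ∃ c : ℝ, 0 < c ∧ ∀ᶠ k in atTop,
    ∀ f ∈ fors (S.G k) {S.o k}, ∀ D : Finset (S.V k), Cl {S.o k} D f →
    (D.card : ℝ) ≤ (Fintype.card (S.V k) : ℝ) ^ c * Nat.sqrt (Fintype.card (S.V k)) →
    (∀ q, ((D.filter (fun x => dep {S.o k} f x = q)).card : ℝ) ≤
      (Fintype.card (S.V k) : ℝ) ^ c) →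
    (∀ y : ℕ, (y : ℝ) ≤ A * Nat.sqrt (Fintype.card (S.V k)) + 2 * wd (Fintype.card (S.V k)) S.a →
      PhiD (S.G k) (S.o k) f D y 1 ≤ Q * Nat.sqrt (Fintype.card (S.V k))) →
    ∀ r r' : ℕ, (r : ℝ) ≤ A * Nat.sqrt (Fintype.card (S.V k)) →
      (r' : ℝ) ≤ A * Nat.sqrt (Fintype.card (S.V k)) →
      |(r : ℝ) - r'| ≤ wd (Fintype.card (S.V k)) S.a →
      |PhiD (S.G k) (S.o k) f D r 1 - PhiD (S.G k) (S.o k) f D r' 1| ≤
        ε * Nat.sqrt (Fintype.card (S.V k))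

/-- SL (scale lemma) -/
def SLGoal2 : Prop := ∀ (S : Setup) (K : ∀ k, HW (S.V k)), IsKer S K → Tight S →
  ∀ A : ℝ, 1 ≤ A → ∃ c C : ℝ, 0 < c ∧ 1 ≤ C ∧ ∀ η : ℝ, 0 < η → ∃ J₀ : ℝ, 1 ≤ J₀ ∧ ∀ᶠ k in atTop,
    ∃ T : (S.V k → S.V k) → Prop, EF (S.G k) {S.o k} (fun f => ind (¬ T f)) ≤ η ∧
    ∀ J : ℕ, J₀ ≤ J →
    (J : ℝ) ^ C ≤ (Fintype.card (S.V k) : ℝ) ^ (S.a / 8) →
    ∀ w : ℕ, wd (Fintype.card (S.V k)) S.a ≤ w → ∀ P : Finset (ℕ × ℕ),
    (∀ p ∈ P, (p.1 : ℝ) + w ≤ A * Nat.sqrt (Fintype.card (S.V k)) ∧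
      (p.2 : ℝ) + w ≤ A * Nat.sqrt (Fintype.card (S.V k)) ∧
      |(p.1 : ℝ) - p.2| * (J : ℝ) ^ C ≤ Nat.sqrt (Fintype.card (S.V k))) →
    EF (S.G k) {S.o k} (fun f => ind (T f ∧ ∃ p ∈ P,
        (J : ℝ) ^ (-c) * (w * Nat.sqrt (Fintype.card (S.V k))) <
          |bs (S.o k) f p.1 w - bs (S.o k) f p.2 w|)) ≤
      (J : ℝ) ^ (-c) + P.card * Real.exp (-(J : ℝ) ^ c)

/-- SU (unit scale lemma): if the block averages at scale about `wd` are bounded then the profile is flat at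
scale `2 wd` -/
def SUGoal2 : Prop := ∀ (S : Setup) (K : ∀ k, HW (S.V k)), IsKer S K → Tight S →
  ∀ A Q ε η : ℝ, 1 ≤ A → 0 < ε → 0 < η → ∀ᶠ k in atTop,
    ∀ w : ℕ, wd (Fintype.card (S.V k)) S.a ≤ w →
    w ≤ 2 * wd (Fintype.card (S.V k)) S.a →
    EF (S.G k) {S.o k} (fun f => ind (
      (∀ i : ℕ, (i : ℝ) * w ≤ A * Nat.sqrt (Fintype.card (S.V k)) →
        bs (S.o k) f (i * w) w ≤ Q * (w * Nat.sqrt (Fintype.card (S.V k)))) ∧
      (∃ r r' : ℕ, (r : ℝ) ≤ A * Nat.sqrt (Fintype.card (S.V k)) ∧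
        (r' : ℝ) ≤ A * Nat.sqrt (Fintype.card (S.V k)) ∧ |(r : ℝ) - r'| ≤ w ∧
        ε * Nat.sqrt (Fintype.card (S.V k)) < |bs (S.o k) f r 1 - bs (S.o k) f r' 1|))) ≤ η

/-- CH (chain): asymptotic equicontinuity of the height profile -/
def EquiGoal2 : Prop := ∀ (S : Setup), Tight S → ∀ (A ε η : ℝ), 0 < ε → 0 < η →
  ∃ δ : ℝ, 0 < δ ∧
  ∀ᶠ k in atTop, ustE (S.G k) (fun T => ind (∃ r r' : ℕ,
    (r : ℝ) ≤ A * Real.sqrt (Fintype.card (S.V k)) ∧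
    (r' : ℝ) ≤ A * Real.sqrt (Fintype.card (S.V k)) ∧
    |(r : ℝ) - r'| ≤ δ * Real.sqrt (Fintype.card (S.V k)) ∧
    ε * Real.sqrt (Fintype.card (S.V k)) <
      |(height T (S.o k) r : ℝ) - height T (S.o k) r'|)) ≤ η

/-- SL2 (me) -/
def SL22_stmt : Prop := SL1_stmt → WD_stmt → BGoal2 → CMGoal → SLGoal2

/-- SU (helper93) -/
def SU2_stmt : Prop := SL1_stmt → WD_stmt → BGoal2 → CUGoal2 → CAP_stmt → SUGoal2

/-- CH (me) -/
def CH2_stmt : Prop := SLGoal2 → SUGoal2 → EquiGoal2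

/-- the functional form of the final theorem: convergence in distribution for the topology of uniform
convergence on compact subsets of `(0, ∞)`. The hypotheses on `ell` are the known facts on the continuum
profile and the known convergence of the volume profile. -/
def FuncGoal2 : Prop := ∀ (S : Setup) (β : ℕ → ℝ) (b₁ b₂ : ℝ), 0 < b₁ →
  (∀ k, b₁ ≤ β k ∧ β k ≤ b₂) →
  ∀ (Ω : Type) (_ : MeasurableSpace Ω) (P : Measure Ω) (_ : IsProbabilityMeasure P)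
    (ell : ℝ → Ω → ℝ),
    (∀ r, 0 < r → AEMeasurable (ell r) P) →
    (∀ᵐ ω ∂P, ContinuousOn (fun r => ell r ω) (Set.Ioi 0)) →
    (∀ᵐ ω ∂P, ∀ r, 0 < r → IntervalIntegrable (fun u => ell u ω) volume 0 r) →
    (∀ᵐ ω ∂P, Tendsto (fun r : ℝ => ∫ u in (0 : ℝ)..r, ell u ω) atTop (𝓝 1)) →
    (∀ (m : ℕ) (s : Fin m → ℝ), (∀ i, 0 < s i) → ∀ F : BoundedContinuousFunction (Fin m → ℝ) ℝ,
      Tendsto (fun k => ustE (S.G k) (fun T => F (fun i =>
          (vol T (S.o k) ⌊s i * β k * Real.sqrt (Fintype.card (S.V k))⌋₊ : ℝ)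
            / (Fintype.card (S.V k) : ℝ)))) atTop
        (𝓝 (∫ ω, F (fun i => ∫ u in (0 : ℝ)..(s i), ell u ω) ∂P))) →
    ∀ Ψ : (ℝ → ℝ) → ℝ, CtsFunctional Ψ →
      Tendsto (fun k => ustE (S.G k) (fun T => Ψ (fun s =>
          β k / Real.sqrt (Fintype.card (S.V k))
            * (height T (S.o k) ⌊s * β k * Real.sqrt (Fintype.card (S.V k))⌋₊ : ℝ)))) atTop
        (𝓝 (∫ ω, Ψ (fun r => ell r ω) ∂P))

/-- FF2: final assembly (the new hypothesis gives `Tight S`: f.d.d. convergence of the volume at one large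
time with `F x = max 0 (min x 1)`) -/
def FF2_stmt : Prop := FE_stmt → EquiGoal2 → FinalGoal → FuncGoal2

end Pool.Agent.helper90.FN
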