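import Pool.Agent.helper90.FN.SLa
import Pool.Agent.helper72.HP.A9
import Pool.Agent.helper72.HP.M2

/-! Scale lemma (module SL2), assembly. -/

set_option autoImplicit false

open scoped BigOperators Topology
open Filter MeasureTheory

namespace Pool.Agent.helper90.FN

open Finset
open Pool.Agent.helper72.UT (IsFor dep pth rt fors Reg lz)
open Pool.Agent.helper20.HP (ind HW W Par cc run lel lst lazyP tmix ustE height vol Setup CZ CP IsKer
  wd FinalGoal par_eventually tmix_small M2_reg M2_kernel)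

/-- the error term of SL1 with the choice of the parameters -/
theorem SL_rhs (t L w h Mc Ap C₁ cB κ : ℝ) (ht : 1 ≤ t) (hL : 0 < L) (hw : 1 ≤ w) (hMc : 1 ≤ Mc)
    (hκ : 0 < κ) (hκ8 : 8 * κ ≤ cB) (hh0 : 0 < h) (hh1 : h ≤ L * t ^ (-cB))
    (hh2 : L * t ^ (-cB) ≤ 2 * h) (hnum : 4 * (1 + Mc) * t ^ (-(2 * κ)) ≤ 1) :
    (t ^ κ / (w * L)) * (t ^ (3 * κ) * (1 + Mc * w) * (4 * h)) ≤ 1 ∧
    2 * Real.exp (-((t ^ κ / (w * L)) * (1 / 3 * t ^ (-(κ / 2)) * (w * L))) +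
        (t ^ κ * (w * L)) * (t ^ κ / (w * L)) ^ 2 * (t ^ (3 * κ) * (1 + Mc * w) * (4 * h)))
      + ((t ^ κ / (w * L)) * Real.exp ((t ^ κ / (w * L)) * (t ^ κ * (w * L))) *
            Real.exp (-(t ^ (3 * κ))) * (Mc * w) +
          1 / (2 * t ^ (3 * κ) * h) * Real.exp (-(t ^ (3 * κ) / 2))) * (t ^ C₁ * L)
      + Real.exp (3 - t ^ κ / Ap) ≤
    2 * Real.exp (1 - t ^ (κ / 2) / 3)
      + (Mc * t ^ (κ + C₁) * Real.exp (t ^ (2 * κ) - t ^ (3 * κ))
          + t ^ (C₁ + cB) * Real.exp (-(t ^ (3 * κ) / 2)))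
      + Real.exp (3 - t ^ κ / Ap) := by
  have ht0 : 0 < t := by linarith
  have hw0 : 0 < w := by linarith
  have hwL : 0 < w * L := mul_pos hw0 hL
  have htκ : 0 < t ^ κ := Real.rpow_pos_of_pos ht0 _
  have ht3 : 0 < t ^ (3 * κ) := Real.rpow_pos_of_pos ht0 _
  have htcB : 0 < t ^ (-cB) := Real.rpow_pos_of_pos ht0 _
  set q : ℝ := (t ^ κ / (w * L)) * (t ^ (3 * κ) * (1 + Mc * w) * (4 * h)) with hq
  have hq0 : 0 ≤ q := by positivity
  have hq1 : q ≤ 4 * (1 + Mc) * t ^ (-(4 * κ)) := by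
    have h1 : (1 + Mc * w) * (4 * h) ≤ ((1 + Mc) * w) * (4 * (L * t ^ (-cB))) := by
      refine mul_le_mul ?_ (by linarith) (by positivity) (by positivity)
      nlinarith
    have h2 : q ≤ (t ^ κ / (w * L)) * (t ^ (3 * κ) * (((1 + Mc) * w) * (4 * (L * t ^ (-cB))))) := by
      rw [hq, mul_assoc (t ^ (3 * κ))]
      exact mul_le_mul_of_nonneg_left (mul_le_mul_of_nonneg_left h1 ht3.le) (by positivity)
    have h3 : (t ^ κ / (w * L)) * (t ^ (3 * κ) * (((1 + Mc) * w) * (4 * (L * t ^ (-cB))))) =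
        4 * (1 + Mc) * (t ^ κ * t ^ (3 * κ) * t ^ (-cB)) := by
      field_simp
    have h4 : t ^ κ * t ^ (3 * κ) * t ^ (-cB) ≤ t ^ (-(4 * κ)) := by
      rw [← Real.rpow_add ht0, ← Real.rpow_add ht0]
      exact Real.rpow_le_rpow_of_exponent_le ht (by linarith)
    calc q ≤ _ := h2
      _ = 4 * (1 + Mc) * (t ^ κ * t ^ (3 * κ) * t ^ (-cB)) := h3
      _ ≤ 4 * (1 + Mc) * t ^ (-(4 * κ)) := mul_le_mul_of_nonneg_left h4 (by positivity)
  have hqa : q ≤ 1 := by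
    refine le_trans hq1 (le_trans ?_ hnum)
    refine mul_le_mul_of_nonneg_left ?_ (by positivity)
    exact Real.rpow_le_rpow_of_exponent_le ht (by linarith)
  refine ⟨hqa, ?_⟩
  have e1 : (t ^ κ / (w * L)) * (1 / 3 * t ^ (-(κ / 2)) * (w * L)) = t ^ (κ / 2) / 3 := by
    have h1 : t ^ κ * t ^ (-(κ / 2)) = t ^ (κ / 2) := by
      rw [← Real.rpow_add ht0]; congr 1; ring
    calc (t ^ κ / (w * L)) * (1 / 3 * t ^ (-(κ / 2)) * (w * L))
        = (t ^ κ * t ^ (-(κ / 2))) / 3 := by field_simp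
      _ = _ := by rw [h1]
  have e2 : (t ^ κ * (w * L)) * (t ^ κ / (w * L)) ^ 2 * (t ^ (3 * κ) * (1 + Mc * w) * (4 * h)) =
      t ^ (2 * κ) * q := by
    have h1 : t ^ (2 * κ) = t ^ κ * t ^ κ := by
      rw [← Real.rpow_add ht0]; congr 1; ring
    rw [hq, h1]
    field_simp
  have e3 : t ^ (2 * κ) * q ≤ 1 := by
    calc t ^ (2 * κ) * q ≤ t ^ (2 * κ) * (4 * (1 + Mc) * t ^ (-(4 * κ))) :=
          mul_le_mul_of_nonneg_left hq1 (Real.rpow_nonneg ht0.le _)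
      _ = 4 * (1 + Mc) * (t ^ (2 * κ) * t ^ (-(4 * κ))) := by ring
      _ = 4 * (1 + Mc) * t ^ (-(2 * κ)) := by
          rw [← Real.rpow_add ht0]; congr 2; ring
      _ ≤ 1 := hnum
  have a1 : 2 * Real.exp (-((t ^ κ / (w * L)) * (1 / 3 * t ^ (-(κ / 2)) * (w * L))) +
        (t ^ κ * (w * L)) * (t ^ κ / (w * L)) ^ 2 * (t ^ (3 * κ) * (1 + Mc * w) * (4 * h))) ≤
      2 * Real.exp (1 - t ^ (κ / 2) / 3) := by
    refine mul_le_mul_of_nonneg_left ?_ (by norm_num)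
    rw [Real.exp_le_exp, e1, e2]
    linarith
  have a2 : (t ^ κ / (w * L)) * Real.exp ((t ^ κ / (w * L)) * (t ^ κ * (w * L))) *
            Real.exp (-(t ^ (3 * κ))) * (Mc * w) * (t ^ C₁ * L) =
      Mc * t ^ (κ + C₁) * Real.exp (t ^ (2 * κ) - t ^ (3 * κ)) := by
    have h1 : (t ^ κ / (w * L)) * (t ^ κ * (w * L)) = t ^ (2 * κ) := by
      have : t ^ (2 * κ) = t ^ κ * t ^ κ := by
        rw [← Real.rpow_add ht0]; congr 1; ring
      rw [this]; field_simp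
    rw [h1, sub_eq_add_neg, Real.exp_add, Real.rpow_add ht0]
    field_simp
  have a3 : 1 / (2 * t ^ (3 * κ) * h) * Real.exp (-(t ^ (3 * κ) / 2)) * (t ^ C₁ * L) ≤
      t ^ (C₁ + cB) * Real.exp (-(t ^ (3 * κ) / 2)) := by
    have h1 : 1 ≤ t ^ (3 * κ) := Real.one_le_rpow ht (by positivity)
    have h2 : 1 / (2 * t ^ (3 * κ) * h) * (t ^ C₁ * L) ≤ t ^ (C₁ + cB) := by
      have h3 : t ^ (C₁ + cB) = t ^ C₁ * (t ^ (-cB))⁻¹ := by
        rw [Real.rpow_add ht0, Real.rpow_neg ht0.le, inv_inv]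
      rw [h3, one_div, inv_mul_le_iff₀ (by positivity)]
      have h4 : L ≤ 2 * h * (t ^ (-cB))⁻¹ := by
        rw [← div_eq_mul_inv, le_div_iff₀ htcB]; exact hh2
      have h5 : 0 < t ^ C₁ := Real.rpow_pos_of_pos ht0 _
      calc t ^ C₁ * L ≤ t ^ C₁ * (2 * h * (t ^ (-cB))⁻¹) := mul_le_mul_of_nonneg_left h4 h5.le
        _ = 1 * (2 * h * (t ^ C₁ * (t ^ (-cB))⁻¹)) := by ring
        _ ≤ t ^ (3 * κ) * (2 * h * (t ^ C₁ * (t ^ (-cB))⁻¹)) :=
            mul_le_mul_of_nonneg_right h1 (by positivity)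
        _ = 2 * t ^ (3 * κ) * h * (t ^ C₁ * (t ^ (-cB))⁻¹) := by ring
    calc 1 / (2 * t ^ (3 * κ) * h) * Real.exp (-(t ^ (3 * κ) / 2)) * (t ^ C₁ * L)
        = 1 / (2 * t ^ (3 * κ) * h) * (t ^ C₁ * L) * Real.exp (-(t ^ (3 * κ) / 2)) := by ring
      _ ≤ _ := mul_le_mul_of_nonneg_right h2 (Real.exp_pos _).le
  refine add_le_add (add_le_add a1 ?_) le_rfl
  rw [add_mul, a2]
  exact add_le_add le_rfl a3

/-- elementary asymptotics -/
theorem SL_sizes (S : Setup) : ∀ᶠ k in atTop,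
    4 ≤ Fintype.card (S.V k) ∧
    1 ≤ wd (Fintype.card (S.V k)) S.a ∧
    ∀ y : ℝ, 1 ≤ y → y ≤ (Fintype.card (S.V k) : ℝ) ^ (S.a / 8) →
      2 * (tmix (S.G k) + 1) ≤ ⌊(Nat.sqrt (Fintype.card (S.V k)) : ℝ) * y⁻¹⌋₊ := by
  have ha : 0 < S.a := lt_min S.α_pos (by norm_num)
  have ha4 : S.a ≤ 1 / 4 := min_le_right _ _
  have hcard : Tendsto (fun k => (Fintype.card (S.V k) : ℝ)) atTop atTop :=
    tendsto_natCast_atTop_atTop.comp S.card
  have e1 : ∀ᶠ k in atTop, (4 : ℝ) ≤ Fintype.card (S.V k) := hcard.eventually_ge_atTop 4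
  have e2 : ∀ᶠ k in atTop, (8 : ℝ) ≤ (Fintype.card (S.V k) : ℝ) ^ (1 / 2 - S.a / 8) :=
    ((tendsto_rpow_atTop (by linarith : 0 < 1 / 2 - S.a / 8)).comp hcard).eventually_ge_atTop 8
  filter_upwards [e1, e2, tmix_small S (1 / 16) (by norm_num)] with k h1 h2 h3
  set n := Fintype.card (S.V k) with hn
  have hn0 : (0 : ℝ) < n := by linarith
  have hn4 : 4 ≤ n := by exact_mod_cast h1
  refine ⟨hn4, Nat.le_floor (by push_cast; linarith), fun y hy1 hy2 => ?_⟩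
  have hy0 : 0 < y := by linarith
  have hs1 : Real.sqrt n ≤ 2 * Nat.sqrt n := by
    rw [Real.sqrt_le_left (by positivity)]
    have hL1 : 1 ≤ Nat.sqrt n := Nat.le_sqrt.2 (by omega)
    have hL1R : (1 : ℝ) ≤ Nat.sqrt n := by exact_mod_cast hL1
    have h5 := Nat.lt_succ_sqrt n
    have h4 : (n : ℝ) < (Nat.sqrt n + 1) * (Nat.sqrt n + 1) := by exact_mod_cast h5
    nlinarith
  apply Nat.le_floor
  have h4 : (n : ℝ) ^ (1 / 2 - S.a / 8) ≤ 2 * (Nat.sqrt n * y⁻¹) := by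
    have h5 : (n : ℝ) ^ (1 / 2 - S.a / 8) = Real.sqrt n / (n : ℝ) ^ (S.a / 8) := by
      rw [Real.rpow_sub hn0, Real.sqrt_eq_rpow]
    rw [h5, div_le_iff₀ (by positivity)]
    calc Real.sqrt n ≤ 2 * Nat.sqrt n := hs1
      _ = 2 * (Nat.sqrt n * y⁻¹) * y := by field_simp
      _ ≤ 2 * (Nat.sqrt n * y⁻¹) * (n : ℝ) ^ (S.a / 8) :=
          mul_le_mul_of_nonneg_left hy2 (by positivity)
  have h6 : ((tmix (S.G k) + 1 : ℕ) : ℝ) ≤ 1 / 16 * (n : ℝ) ^ (1 / 2 - S.a) := h3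
  have h7 : (n : ℝ) ^ (1 / 2 - S.a) ≤ (n : ℝ) ^ (1 / 2 - S.a / 8) :=
    Real.rpow_le_rpow_of_exponent_le (by linarith) (by linarith)
  push_cast at h6 ⊢
  linarith

/-- pointwise union bound -/
theorem SL_pt (Tf good : Prop) (P : Finset (ℕ × ℕ)) (b : ℕ → Prop) (big : ℕ × ℕ → Prop)
    (h : Tf → good → ∀ p ∈ P, big p → b p.1 ∨ b p.2) :
    ind (Tf ∧ ∃ p ∈ P, big p) ≤ ind (Tf ∧ ¬ good) + ∑ p ∈ P, (ind (b p.1) + ind (b p.2)) := by
  have hs : 0 ≤ ∑ p ∈ P, (ind (b p.1) + ind (b p.2)) :=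
    Finset.sum_nonneg fun _ _ => add_nonneg (CH_ind_nonneg _) (CH_ind_nonneg _)
  have hg := CH_ind_nonneg (Tf ∧ ¬ good)
  by_cases hh : Tf ∧ ∃ p ∈ P, big p
  · rw [CH_ind_true hh]
    obtain ⟨hTf, p, hp, hbig⟩ := hh
    by_cases hgood : good
    · have h7 : ind (b p.1) + ind (b p.2) ≤ ∑ p ∈ P, (ind (b p.1) + ind (b p.2)) :=
        Finset.single_le_sum (f := fun p : ℕ × ℕ => ind (b p.1) + ind (b p.2))
          (fun _ _ => add_nonneg (CH_ind_nonneg _) (CH_ind_nonneg _)) hp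
      have h8 : 1 ≤ ind (b p.1) + ind (b p.2) := by
        rcases h hTf hgood p hp hbig with hb | hb
        · rw [CH_ind_true hb]; linarith only [CH_ind_nonneg (b p.2)]
        · rw [CH_ind_true hb]; linarith only [CH_ind_nonneg (b p.1)]
      linarith only [h7, h8, hg]
    · rw [CH_ind_true (show Tf ∧ ¬ good from ⟨hTf, hgood⟩)]
      linarith only [hs]
  · rw [CH_ind_false hh]
    linarith only [hs, hg]

theorem SL22 : SL22_stmt := by
  classical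
  intro hSL1 hWD hB hCM S K hK hT A hA
  obtain ⟨cB, C₁, hcB, hC₁, hBη⟩ := hB S K hK hT
  obtain ⟨cM, CM, hcM, hCM1, hCMev⟩ := hCM S K hK A
  set θ : ℝ := max S.θ 1 with hθ
  have hθ1 : 1 ≤ θ := le_max_right _ _
  have hCZ1 : 1 ≤ CZ θ := by
    unfold Pool.Agent.helper20.HP.CZ; nlinarith
  have hCP1 : 0 ≤ CP θ := by
    unfold Pool.Agent.helper20.HP.CP; positivity
  have hMc : 1 ≤ MC θ := by
    unfold MC; nlinarith
  set Ap : ℝ := A * (1 + 3 * CP θ) with hAp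
  have hAp1 : 1 ≤ Ap := by rw [hAp]; nlinarith
  set κ : ℝ := min cB 1 / 8 with hκ
  have hκ0 : 0 < κ := by
    rw [hκ]; have := lt_min hcB one_pos; positivity
  have hκ8 : 8 * κ ≤ cB := by rw [hκ]; linarith [min_le_left cB 1]
  have hκ1 : κ ≤ 1 / 8 := by rw [hκ]; linarith [min_le_right cB 1]
  have ha : 0 < S.a := lt_min S.α_pos (by norm_num)
  -- the exponent
  set C : ℝ := (CM * (C₁ + 1) + 2) * (1 + S.a / (8 * cM)) + S.a / (8 * cB) + cB + 1 with hC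
  have hCpos1 : 0 ≤ (CM * (C₁ + 1) + 2) := by positivity
  have hCa : CM * (C₁ + 1) + 2 ≤ C := by
    rw [hC]
    have : 0 ≤ (CM * (C₁ + 1) + 2) * (S.a / (8 * cM)) := by positivity
    have : 0 ≤ S.a / (8 * cB) := by positivity
    nlinarith
  have hCb : (CM * (C₁ + 1) + 2) * (S.a / (8 * cM)) ≤ C := by
    rw [hC]
    have : 0 ≤ S.a / (8 * cB) := by positivity
    nlinarith
  have hCc : S.a / (8 * cB) ≤ C := by
    rw [hC]
    have : 0 ≤ (CM * (C₁ + 1) + 2) * (1 + S.a / (8 * cM)) := by positivity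
    linarith
  have hCd : cB ≤ C := by
    rw [hC]
    have : 0 ≤ (CM * (C₁ + 1) + 2) * (1 + S.a / (8 * cM)) := by positivity
    have : 0 ≤ S.a / (8 * cB) := by positivity
    linarith
  have hC1 : 1 ≤ C := by
    have : 0 ≤ CM * (C₁ + 1) := by positivity
    linarith
  have hC0 : 0 < C := by linarith
  refine ⟨κ / 4, C, by positivity, hC1, fun η hη => ?_⟩
  obtain ⟨C₂, hC₂, hBev⟩ := hBη η hη
  obtain ⟨t₀, ht₀, hnum⟩ := SL_num (MC θ) Ap C₁ cB κ CM C₂ hMc hAp1 (by linarith) hκ0 hκ8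
  refine ⟨t₀, ht₀, ?_⟩
  filter_upwards [hBev, hCMev, SL_sizes S, par_eventually S K hK] with k hBk hCMk hsz hPar
  obtain ⟨hn4, hwd1, hmix⟩ := hsz
  obtain ⟨T, hT1, hT2⟩ := hBk
  refine ⟨T, hT1, ?_⟩
  intro J hJ hJC w hw P hP
  obtain ⟨d, hd⟩ := M2_reg (S.G k) (S.conn k) (S.trans k) (by omega)
  have hker := M2_kernel hd (K k) (hK k)
  obtain ⟨n1, n2, n3, n4, n5, n6⟩ := hnum (J : ℝ) hJ
  have hJ2 : (2 : ℝ) ≤ J := n4
  have hJ0 : (0 : ℝ) < J := by linarith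
  have hJ1 : (1 : ℝ) ≤ J := by linarith
  have hJnat : 1 ≤ J := by exact_mod_cast hJ1
  have hnR : (4 : ℝ) ≤ Fintype.card (S.V k) := by exact_mod_cast hn4
  have hn0 : (0 : ℝ) < Fintype.card (S.V k) := by linarith
  have hn1 : (1 : ℝ) ≤ Fintype.card (S.V k) := by linarith
  -- J ≤ n ^ cB
  have hJcB : (J : ℝ) ≤ (Fintype.card (S.V k) : ℝ) ^ cB := by
    have h1 : (J : ℝ) = ((J : ℝ) ^ C) ^ (1 / C) := by
      rw [← Real.rpow_mul hJ0.le, mul_one_div_cancel hC0.ne', Real.rpow_one]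
    rw [h1]
    calc ((J : ℝ) ^ C) ^ (1 / C) ≤ ((Fintype.card (S.V k) : ℝ) ^ (S.a / 8)) ^ (1 / C) :=
          Real.rpow_le_rpow (by positivity) hJC (by positivity)
      _ = (Fintype.card (S.V k) : ℝ) ^ (S.a / 8 * (1 / C)) := by rw [← Real.rpow_mul hn0.le]
      _ ≤ (Fintype.card (S.V k) : ℝ) ^ cB := by
          refine Real.rpow_le_rpow_of_exponent_le hn1 ?_
          rw [mul_one_div, div_le_iff₀ hC0]
          rw [div_le_iff₀ (by positivity)] at hCc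
          linarith
  obtain ⟨l, hl, hlbad⟩ := hT2 J hJnat hJcB
  -- hitting time
  set L : ℝ := (Nat.sqrt (Fintype.card (S.V k)) : ℝ) with hL
  have hLnat : 2 ≤ Nat.sqrt (Fintype.card (S.V k)) := Nat.le_sqrt.2 (by omega)
  have hL2 : (2 : ℝ) ≤ L := by rw [hL]; exact_mod_cast hLnat
  have hL0 : 0 < L := by linarith
  set h : ℕ := ⌊L * (J : ℝ) ^ (-cB)⌋₊ with hh
  have hJy : (J : ℝ) ^ cB ≤ (Fintype.card (S.V k) : ℝ) ^ (S.a / 8) :=
    le_trans (Real.rpow_le_rpow_of_exponent_le hJ1 hCd) hJC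
  have hmix' : 2 * (tmix (S.G k) + 1) ≤ h := by
    have := hmix ((J : ℝ) ^ cB) (by linarith) hJy
    rwa [← Real.rpow_neg hJ0.le] at this
  have hh1 : (h : ℝ) ≤ L * (J : ℝ) ^ (-cB) := Nat.floor_le (by positivity)
  have hhge : (2 : ℝ) ≤ h := by
    have : 2 ≤ h := le_trans (by omega) hmix'
    exact_mod_cast this
  have hh2 : L * (J : ℝ) ^ (-cB) ≤ 2 * h := by
    have := Nat.lt_floor_add_one (L * (J : ℝ) ^ (-cB))
    rw [← hh] at this
    linarith
  have h4h : 4 * h ≤ Nat.sqrt (Fintype.card (S.V k)) := by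
    have h5 : (4 : ℝ) * h ≤ L := by
      have h6 : (J : ℝ) ^ (-cB) ≤ 1 / 4 := by
        rw [Real.rpow_neg hJ0.le, ← one_div]
        exact one_div_le_one_div_of_le (by norm_num) n2
      have h8 : L * (J : ℝ) ^ (-cB) ≤ L * (1 / 4) := mul_le_mul_of_nonneg_left h6 hL0.le
      linarith
    have h7 : ((4 * h : ℕ) : ℝ) ≤ (Nat.sqrt (Fintype.card (S.V k)) : ℝ) := by
      push_cast; exact h5
    exact_mod_cast h7
  have hw1 : 1 ≤ w := le_trans hwd1 hw
  have hw1R : (1 : ℝ) ≤ w := by exact_mod_cast hw1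
  obtain ⟨r1, r2⟩ := SL_rhs (J : ℝ) L w h (MC θ) Ap C₁ cB κ hJ1 hL0 hw1R hMc hκ0 hκ8
    (by linarith) hh1 hh2 n1
  -- the bad events of one window
  set o := S.o k with ho
  set X : ℝ := 1 / 3 * (J : ℝ) ^ (-(κ / 2)) * (w * L) with hX
  have hX0 : 0 ≤ X := by positivity
  set bad : ℕ → (S.V k → S.V k) → Prop := fun r f =>
    Hit (K k) (sk {o} f l) h ∧ ((sk {o} f l).card : ℝ) ≤ (J : ℝ) ^ C₁ * L ∧
      X < |bs o f r w - PhiD (S.G k) o f (sk {o} f l) r w| with hbad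
  have hone : ∀ r : ℕ, (r : ℝ) + w ≤ A * L →
      2 * EF (S.G k) {o} (fun f => ind (bad r f)) ≤ Real.exp (-(J : ℝ) ^ (κ / 4)) := by
    intro r hr
    have h5 := hSL1 (S.V k) (S.G k) d (K k) θ (tmix (S.G k) + 1) h hd hker hPar hmix' h4h o l r w
      A ((J : ℝ) ^ κ / (w * L)) X ((J : ℝ) ^ (3 * κ)) ((J : ℝ) ^ κ) ((J : ℝ) ^ C₁ * L) hA hw1 hr
      (by positivity) (by positivity) hX0 (by positivity) (by positivity) r1
    have h6 := le_trans h5 r2
    linarith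
  -- the means
  have hmean : ∀ p ∈ P, ∀ f ∈ fors (S.G k) {o}, ((sk {o} f l).card : ℝ) ≤ (J : ℝ) ^ C₁ * L →
      |PhiD (S.G k) o f (sk {o} f l) p.1 w - PhiD (S.G k) o f (sk {o} f l) p.2 w| ≤ X := by
    intro p hp f hf hcard
    obtain ⟨hp1, hp2, hp3⟩ := hP p hp
    set B : ℝ := (J : ℝ) ^ (C₁ + 1) with hBdef
    have hBJ : (J : ℝ) ^ (2 : ℝ) ≤ B := Real.rpow_le_rpow_of_exponent_le hJ1 (by linarith)
    have hB2 : (J : ℝ) * J ≤ B := by
      rw [← pow_two, ← Real.rpow_natCast]; exact_mod_cast hBJ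
    have hB1 : 1 ≤ B := Real.one_le_rpow hJ1 (by linarith)
    have hcl : Cl {o} (sk {o} f l) f := by
      refine ⟨Finset.subset_union_left, fun x hx => ?_⟩
      have hfor : IsFor (S.G k) {o} f := Pool.Agent.helper72.UT.mem_fors.1 hf
      unfold sk at hx ⊢
      rw [Finset.mem_union, Finset.mem_biUnion] at hx ⊢
      rcases hx with hx | ⟨v, hv, hx⟩
      · left; rw [hfor.fix x hx]; exact hx
      · by_cases hxo : x ∈ ({o} : Finset (S.V k))
        · left; rw [hfor.fix x hxo]; exact hxo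
        · right
          refine ⟨v, hv, ?_⟩
          rw [List.mem_toFinset] at hx ⊢
          have h5 := hfor.dropWhile_pth v x hx
          have h6 : f x ∈ pth {o} f x := by
            rw [Pool.Agent.helper72.UT.pth_not_mem hxo (hfor.hit x)]
            exact List.mem_cons_of_mem _ (Pool.Agent.helper72.UT.self_mem_pth (f x))
          rw [← h5] at h6
          exact (List.dropWhile_sublist _).mem h6
    have hwidth : ∀ q, (((sk {o} f l).filter (fun x => dep {o} f x = q)).card : ℝ) ≤ B := by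
      intro q
      have h5 := (hWD (S.V k) (S.G k) o f l hf).1 q
      have h6 : (((sk {o} f l).filter (fun x => dep {o} f x = q)).card : ℝ) ≤ l.length + 1 := by
        exact_mod_cast h5
      have h7 : (l.length : ℝ) ≤ J := by exact_mod_cast hl
      have h8 : 2 * (J : ℝ) ≤ J * J := mul_le_mul_of_nonneg_right hJ2 hJ0.le
      have h9 : (l.length : ℝ) + 1 ≤ B := by linarith only [h7, h8, hB2, hJ1]
      exact le_trans h6 h9
    have hcard' : ((sk {o} f l).card : ℝ) ≤ B * L := by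
      refine le_trans hcard (mul_le_mul_of_nonneg_right ?_ hL0.le)
      exact Real.rpow_le_rpow_of_exponent_le hJ1 (by linarith)
    have h8 := hCMk f hf (sk {o} f l) hcl B hB1 hcard' hwidth p.1 p.2 w hp1 hp2 hw
    refine le_trans h8 ?_
    -- both small quantities are at most J ^ (-(CM (C₁+1) + 2))
    set e : ℝ := CM * (C₁ + 1) + 2 with he
    have s1 : |(p.1 : ℝ) - p.2| / L ≤ (J : ℝ) ^ (-e) := by
      rw [div_le_iff₀ hL0, Real.rpow_neg hJ0.le, inv_mul_eq_div, le_div_iff₀ (by positivity)]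
      refine le_trans (mul_le_mul_of_nonneg_left ?_ (abs_nonneg _)) hp3
      exact Real.rpow_le_rpow_of_exponent_le hJ1 hCa
    have s2 : (Fintype.card (S.V k) : ℝ) ^ (-cM) ≤ (J : ℝ) ^ (-e) := by
      rw [Real.rpow_neg hn0.le, Real.rpow_neg hJ0.le]
      refine inv_anti₀ (by positivity) ?_
      have h9 : (J : ℝ) ^ e = ((J : ℝ) ^ C) ^ (e / C) := by
        rw [← Real.rpow_mul hJ0.le]; congr 1; field_simp
      rw [h9]
      calc ((J : ℝ) ^ C) ^ (e / C) ≤ ((Fintype.card (S.V k) : ℝ) ^ (S.a / 8)) ^ (e / C) :=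
            Real.rpow_le_rpow (by positivity) hJC (by positivity)
        _ = (Fintype.card (S.V k) : ℝ) ^ (S.a / 8 * (e / C)) := by rw [← Real.rpow_mul hn0.le]
        _ ≤ (Fintype.card (S.V k) : ℝ) ^ cM := by
            refine Real.rpow_le_rpow_of_exponent_le hn1 ?_
            rw [← mul_div_assoc, div_le_iff₀ hC0]
            have h10 : e * (S.a / (8 * cM)) ≤ C := hCb
            rw [mul_div_assoc', div_le_iff₀ (by positivity)] at h10
            linarith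
    have s3 : B ^ CM * (J : ℝ) ^ (-e) = (J : ℝ) ^ (-2 : ℝ) := by
      rw [hBdef, ← Real.rpow_mul hJ0.le, ← Real.rpow_add hJ0]
      congr 1
      rw [he]; ring
    have s4 : (J : ℝ) ^ (-2 : ℝ) ≤ (J : ℝ)⁻¹ * (J : ℝ) ^ (-(κ / 2)) := by
      have h11 : (J : ℝ)⁻¹ = (J : ℝ) ^ (-1 : ℝ) := by rw [Real.rpow_neg_one]
      rw [h11, ← Real.rpow_add hJ0]
      exact Real.rpow_le_rpow_of_exponent_le hJ1 (by linarith)
    have hB0 : 0 < B ^ CM := by positivity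
    calc CM * B ^ CM * (w * L) * (|(p.1 : ℝ) - p.2| / L + (Fintype.card (S.V k) : ℝ) ^ (-cM))
        ≤ CM * B ^ CM * (w * L) * ((J : ℝ) ^ (-e) + (J : ℝ) ^ (-e)) :=
          mul_le_mul_of_nonneg_left (add_le_add s1 s2) (by positivity)
      _ = 2 * CM * (B ^ CM * (J : ℝ) ^ (-e)) * (w * L) := by ring
      _ = 2 * CM * (J : ℝ) ^ (-2 : ℝ) * (w * L) := by rw [s3]
      _ ≤ 2 * CM * ((J : ℝ)⁻¹ * (J : ℝ) ^ (-(κ / 2))) * (w * L) :=
          mul_le_mul_of_nonneg_right (mul_le_mul_of_nonneg_left s4 (by positivity))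
            (by positivity)
      _ = (2 * CM * (J : ℝ)⁻¹) * ((J : ℝ) ^ (-(κ / 2)) * (w * L)) := by ring
      _ ≤ (1 / 3) * ((J : ℝ) ^ (-(κ / 2)) * (w * L)) := by
          refine mul_le_mul_of_nonneg_right ?_ (by positivity)
          rw [← div_eq_mul_inv, div_le_iff₀ hJ0]
          linarith
      _ = X := by rw [hX]; ring
  -- union bound
  have hXJ : 3 * X ≤ (J : ℝ) ^ (-(κ / 4)) * (w * L) := by
    have h5 : 3 * X = (J : ℝ) ^ (-(κ / 2)) * (w * L) := by rw [hX]; ring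
    rw [h5]
    have h6 : -(κ / 2) ≤ -(κ / 4) := by linarith only [hκ0]
    have h7 : (0 : ℝ) ≤ w * L := mul_nonneg (by linarith only [hw1R]) hL0.le
    exact mul_le_mul_of_nonneg_right (Real.rpow_le_rpow_of_exponent_le hJ1 h6) h7
  have hpt : ∀ f ∈ fors (S.G k) {o}, Good (K k) (sk {o} f l) J cB C₁ → ∀ p ∈ P,
      (J : ℝ) ^ (-(κ / 4)) * (w * L) < |bs o f p.1 w - bs o f p.2 w| → bad p.1 f ∨ bad p.2 f := by
    intro f hf hgood p hp hbig
    have hg1 : Hit (K k) (sk {o} f l) h := hgood.1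
    have hg2 : ((sk {o} f l).card : ℝ) ≤ (J : ℝ) ^ C₁ * L := hgood.2
    by_contra hcon
    push Not at hcon
    obtain ⟨c1, c2⟩ := hcon
    have d1 : |bs o f p.1 w - PhiD (S.G k) o f (sk {o} f l) p.1 w| ≤ X := by
      by_contra hc; push Not at hc; exact c1 ⟨hg1, hg2, hc⟩
    have d2 : |bs o f p.2 w - PhiD (S.G k) o f (sk {o} f l) p.2 w| ≤ X := by
      by_contra hc; push Not at hc; exact c2 ⟨hg1, hg2, hc⟩
    have d3 := hmean p hp f hf hg2
    have d4 : |bs o f p.1 w - bs o f p.2 w| ≤ 3 * X := by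
      rw [abs_le] at d1 d2 d3 ⊢
      constructor
      · linarith only [d1.1, d1.2, d2.1, d2.2, d3.1, d3.2]
      · linarith only [d1.1, d1.2, d2.1, d2.2, d3.1, d3.2]
    linarith only [d4, hXJ, hbig]
  calc EF (S.G k) {o} (fun f => ind (T f ∧ ∃ p ∈ P, (J : ℝ) ^ (-(κ / 4)) * (w * L) <
          |bs o f p.1 w - bs o f p.2 w|))
      ≤ EF (S.G k) {o} (fun f => ind (T f ∧ ¬ Good (K k) (sk {o} f l) J cB C₁) +
          ∑ p ∈ P, (ind (bad p.1 f) + ind (bad p.2 f))) := by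
        refine CH_EF_mono _ _ _ _ fun f hf => ?_
        exact SL_pt (T f) (Good (K k) (sk {o} f l) J cB C₁) P (fun r => bad r f)
          (fun p => (J : ℝ) ^ (-(κ / 4)) * (w * L) < |bs o f p.1 w - bs o f p.2 w|)
          (fun _ hgood p hp hbig => hpt f hf hgood p hp hbig)
    _ = EF (S.G k) {o} (fun f => ind (T f ∧ ¬ Good (K k) (sk {o} f l) J cB C₁)) +
          ∑ p ∈ P, (EF (S.G k) {o} (fun f => ind (bad p.1 f)) +
            EF (S.G k) {o} (fun f => ind (bad p.2 f))) := by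
        rw [CH_EF_add, CH_EF_sum]
        simp only [CH_EF_add]
    _ ≤ C₂ * (J : ℝ) ^ (-cB) + ∑ _p ∈ P, Real.exp (-(J : ℝ) ^ (κ / 4)) := by
        refine add_le_add hlbad (Finset.sum_le_sum fun p hp => ?_)
        obtain ⟨hp1, hp2, _⟩ := hP p hp
        have h5 := hone p.1 hp1
        have h6 := hone p.2 hp2
        linarith
    _ ≤ (J : ℝ) ^ (-(κ / 4)) + P.card * Real.exp (-(J : ℝ) ^ (κ / 4)) := by
        rw [Finset.sum_const, nsmul_eq_mul]
        exact add_le_add n5 le_rfl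

end Pool.Agent.helper90.FN
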