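import Pool.Agent.helper90.FN.Defs

/-!
Statements of the modules of part A (concentration of the profile given a skeleton). Every statement is
independent; a module file proves `theorem XX (h : YY_stmt) ... : XX_stmt` from earlier statements.
-/

set_option autoImplicit false

open scoped BigOperators Topology
open Filter MeasureTheory

namespace Pool.Agent.helper90.FN

open Finset
open Pool.Agent.helper72.UT (IsFor dep pth rt fors Reg lz)
open Pool.Agent.helper20.HP (ind HW W Par cc run lel lst lazyP tmix ustE height vol Setup CZ CP IsKer)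

/-! ### Gluing and tower property -/

/-- G1: gluing. Proof: induction along the forest `g` (`IsFor.ind`). -/
def G1_stmt : Prop :=
  ∀ (V : Type) [Fintype V] [DecidableEq V] (G : SimpleGraph V) (C D : Finset V) (q g : V → V),
    q ∈ fors G C → Cl C D q → g ∈ fors G D →
    glue D q g ∈ fors G C ∧
    (∀ v, rt C (glue D q g) v = rt C q (rt D g v)) ∧
    (∀ v, dep C (glue D q g) v = dep D g v + dep C q (rt D g v)) ∧
    (∀ v x, x ∈ pth C (glue D q g) v ↔ (x ∈ pth D g v ∨ x ∈ pth C q (rt D g v)))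

/-- G2: the forests which agree with `q` on `D` are the `glue D q g`, `g` rooted at `D`
(inverse map: `f ↦ glue D id f`). -/
def G2_stmt : Prop :=
  ∀ (V : Type) [Fintype V] [DecidableEq V] (G : SimpleGraph V) (C D : Finset V) (q : V → V),
    q ∈ fors G C → Cl C D q →
    (0 < (fors G D).card) ∧
    ∀ F : (V → V) → ℝ,
      ∑ f ∈ (fors G C).filter (fun f => ∀ x ∈ D, f x = q x), F f = ∑ g ∈ fors G D, F (glue D q g)

/-- G3: tower property for a stopping rule `R`. (Partition `fors G C` in the classes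
`f' = f on R f`; by G2 the class of `f` has `card (fors G (R f))` elements.) -/
def G3_stmt : Prop :=
  ∀ (V : Type) [Fintype V] [DecidableEq V] (G : SimpleGraph V) (C : Finset V)
    (R : (V → V) → Finset V),
    (∀ f ∈ fors G C, Cl C (R f) f) →
    (∀ f ∈ fors G C, ∀ f' ∈ fors G C, (∀ x ∈ R f, f' x = f x) → R f' = R f) →
    ∀ F : (V → V) → ℝ, EF G C F = EF G C (fun f => EF G (R f) (fun g => F (glue (R f) f g)))

/-- G4: `dn` and `sk` are stopping rules; on the class of `f` the path of `v` is the same. -/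
def G4_stmt : Prop :=
  ∀ (V : Type) [Fintype V] [DecidableEq V] (G : SimpleGraph V) (C : Finset V),
    (∀ v, ∀ f ∈ fors G C, Cl C (dn C f v) f) ∧
    (∀ v, ∀ f ∈ fors G C, ∀ f' ∈ fors G C, (∀ x ∈ dn C f v, f' x = f x) →
      dn C f' v = dn C f v ∧ pth C f' v = pth C f v ∧ rt C f' v = rt C f v ∧
        dep C f' v = dep C f v) ∧
    (∀ l, ∀ f ∈ fors G C, Cl C (sk C f l) f) ∧
    (∀ l, ∀ f ∈ fors G C, ∀ f' ∈ fors G C, (∀ x ∈ sk C f l, f' x = f x) → sk C f' l = sk C f l) ∧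
    (∀ D, ∀ f ∈ fors G C, ∀ f' ∈ fors G C, Cl C D f → (∀ x ∈ D, f' x = f x) →
      Cl C D f' ∧ ∀ x ∈ D, rt C f' x = rt C f x ∧ dep C f' x = dep C f x)

/-! ### Domination -/

/-- DOM (helper65, 5AE_FUNC_helper65.md section 1): more roots, fewer edges attached to `S`. `Q R f` depends
only on (and is monotone in) the part of `f` attached to `S`. -/
def DOM_stmt : Prop :=
  ∀ (V : Type) [Fintype V] [DecidableEq V] (G : SimpleGraph V) (S : Finset V)
    (Q : Finset V → (V → V) → ℝ),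
    S.Nonempty → G.Connected →
    (∀ R R' : Finset V, ∀ f f' : V → V, S ⊆ R → S ⊆ R' → f ∈ fors G R → f' ∈ fors G R' →
      (∀ v, v ∉ R' → rt R' f' v ∈ S → v ∉ R ∧ f v = f' v ∧ rt R f v ∈ S) → Q R' f' ≤ Q R f) →
    ∀ R R' : Finset V, S ⊆ R → R ⊆ R' → EF G R' (Q R') ≤ EF G R (Q R)

/-! ### The functional `HB` -/

/-- HM: `HB R S` is monotone in the part attached to `S` (so DOM applies to `Ψ (HB ...)`). Under the
hypothesis the trees hanging from `S` in `f'` are contained in those of `f`, with the same levels. -/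
def HM_stmt : Prop :=
  ∀ (V : Type) [Fintype V] [DecidableEq V] (G : SimpleGraph V) (S R R' : Finset V) (f f' : V → V)
    (ℓ : V → ℕ) (r w : ℕ) (b : ℝ), 0 ≤ b → S ⊆ R → S ⊆ R' → f ∈ fors G R → f' ∈ fors G R' →
    (∀ v, v ∉ R' → rt R' f' v ∈ S → v ∉ R ∧ f v = f' v ∧ rt R f v ∈ S) →
    HB R' S ℓ r w b f' ≤ HB R S ℓ r w b f

/-- HS: `HB` as a sum over vertices; `nb` and `HB`, `exc`. -/
def HS_stmt : Prop :=
  ∀ (V : Type) [Fintype V] [DecidableEq V] (G : SimpleGraph V) (C : Finset V) (f : V → V)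
    (ℓ : V → ℕ) (r w : ℕ) (b : ℝ), 0 < b → f ∈ fors G C →
    (∑ x, ind (x ∉ C ∧ f x ∈ C) * hx C ℓ r w f x = nb C C ℓ r w f) ∧
    (0 ≤ HB C C ℓ r w b f) ∧ (HB C C ℓ r w b f ≤ nb C C ℓ r w f) ∧
    (nb C C ℓ r w f - exc C ℓ r w b f ≤ HB C C ℓ r w b f) ∧ (0 ≤ exc C ℓ r w b f) ∧
    ((∀ x, x ∉ C → f x ∈ C → hx C ℓ r w f x ≤ b) → HB C C ℓ r w b f = nb C C ℓ r w f) ∧
    ((¬ ∀ x, x ∉ C → f x ∈ C → hx C ℓ r w f x ≤ b) → b / 2 ≤ exc C ℓ r w (b / 2) f)

/-- HG: after gluing along the path of `v` the functional grows by at most `b` -/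
def HG_stmt : Prop :=
  ∀ (V : Type) [Fintype V] [DecidableEq V] (G : SimpleGraph V) (C : Finset V) (f g : V → V) (v : V)
    (ℓ : V → ℕ) (r w : ℕ) (b : ℝ), 0 ≤ b → f ∈ fors G C → v ∉ C → g ∈ fors G (dn C f v) →
    HB C C ℓ r w b (glue (dn C f v) f g) ≤ HB (dn C f v) C ℓ r w b g + b

/-! ### Size bias inequalities -/

/-- UP: `E[H^b e^{λ H^b}] ≤ Φ e^{λ b} E[e^{λ H^b}]` -/
def UP_stmt : Prop :=
  ∀ (V : Type) [Fintype V] [DecidableEq V] (G : SimpleGraph V) (C : Finset V) (ℓ : V → ℕ)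
    (r w : ℕ) (b lam : ℝ), G.Connected → C.Nonempty → 0 < b → 0 ≤ lam →
    EF G C (fun f => HB C C ℓ r w b f * Real.exp (lam * HB C C ℓ r w b f)) ≤
      EF G C (nb C C ℓ r w) * Real.exp (lam * b) *
        EF G C (fun f => Real.exp (lam * HB C C ℓ r w b f))

/-- DN: `E[H^b e^{-λ H^b}] ≥ e^{-λ b} Φ E[e^{-λ H^b}] - E exc` -/
def DN_stmt : Prop :=
  ∀ (V : Type) [Fintype V] [DecidableEq V] (G : SimpleGraph V) (C : Finset V) (ℓ : V → ℕ)
    (r w : ℕ) (b lam : ℝ), G.Connected → C.Nonempty → 0 < b → 0 ≤ lam →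
    Real.exp (-(lam * b)) * EF G C (nb C C ℓ r w) *
        EF G C (fun f => Real.exp (-(lam * HB C C ℓ r w b f))) - EF G C (exc C ℓ r w b) ≤
      EF G C (fun f => HB C C ℓ r w b f * Real.exp (-(lam * HB C C ℓ r w b f)))

/-- OU: `K(λ) = E e^{λ X}` with `E[X e^{λ X}] ≤ Φ e^{λ b} E[e^{λ X}]` for all `λ ≥ 0` (finite average with
weights `p`) -/
def OU_stmt : Prop :=
  ∀ (ι : Type) (s : Finset ι) (p X : ι → ℝ) (Φ b : ℝ), (∀ i ∈ s, 0 ≤ p i) → ∑ i ∈ s, p i = 1 →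
    0 < b → 0 ≤ Φ →
    (∀ lam : ℝ, 0 ≤ lam → ∑ i ∈ s, p i * (X i * Real.exp (lam * X i)) ≤
      Φ * Real.exp (lam * b) * ∑ i ∈ s, p i * Real.exp (lam * X i)) →
    ∀ lam : ℝ, 0 ≤ lam → lam * b ≤ 1 →
      ∑ i ∈ s, p i * Real.exp (lam * X i) ≤ Real.exp (lam * Φ + Φ * lam ^ 2 * b)

/-- OD: `E[X e^{-λ X}] ≥ e^{-λ b} Φ E[e^{-λ X}] - ε` for all `λ ≥ 0` -/
def OD_stmt : Prop :=
  ∀ (ι : Type) (s : Finset ι) (p X : ι → ℝ) (Φ b ε : ℝ), (∀ i ∈ s, 0 ≤ p i) → ∑ i ∈ s, p i = 1 →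
    0 < b → 0 ≤ Φ → 0 ≤ ε →
    (∀ lam : ℝ, 0 ≤ lam → Real.exp (-(lam * b)) * Φ * ∑ i ∈ s, p i * Real.exp (-(lam * X i)) - ε ≤
      ∑ i ∈ s, p i * (X i * Real.exp (-(lam * X i)))) →
    ∀ lam : ℝ, 0 ≤ lam →
      ∑ i ∈ s, p i * Real.exp (-(lam * X i)) ≤
        Real.exp (-(lam * Φ) + Φ * lam ^ 2 * b) + lam * ε

/-- TL: tail bound from UP, DN, OU, OD, HS -/
def TL_stmt : Prop :=
  ∀ (V : Type) [Fintype V] [DecidableEq V] (G : SimpleGraph V) (C : Finset V) (ℓ : V → ℕ)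
    (r w : ℕ) (b lam x F : ℝ), G.Connected → C.Nonempty → 0 < b → 0 < lam → lam * b ≤ 1 → 0 ≤ x →
    EF G C (nb C C ℓ r w) ≤ F →
    EF G C (fun f => ind (x < |nb C C ℓ r w f - EF G C (nb C C ℓ r w)|)) ≤
      2 * Real.exp (-(lam * x) + F * lam ^ 2 * b)
        + lam * Real.exp (lam * F) * EF G C (exc C ℓ r w b)
        + 2 / b * EF G C (exc C ℓ r w (b / 2))

/-! ### Exponential moments -/

/-- EM: exponential moment of the number of vertices hanging from `W` (strong induction on `|V \ D|`; the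
derivative in `ν` is computed with the size bias along `dn`). -/
def EM_stmt : Prop :=
  ∀ (V : Type) [Fintype V] [DecidableEq V] (G : SimpleGraph V) (C₀ : Finset V) (μ a a₀ : ℝ)
    (r w : ℕ), G.Connected → C₀.Nonempty → 0 ≤ a → 0 ≤ a₀ → 0 ≤ μ → Hyp G C₀ μ a a₀ r w →
    ∀ ν : ℝ, 0 ≤ ν → ν * (1 + a) ≤ μ → ∀ D : Finset V, C₀ ⊆ D → ∀ W ⊆ D, ∀ ℓ : V → ℕ,
      EF G D (fun g => Real.exp (ν * nb D W ℓ r w g)) ≤ Real.exp (ν * (a * W.card + a₀))

/-- EB: the excess is exponentially small -/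
def EB_stmt : Prop :=
  ∀ (V : Type) [Fintype V] [DecidableEq V] (G : SimpleGraph V) (C : Finset V) (μ a : ℝ)
    (r w : ℕ), G.Connected → C.Nonempty → 0 ≤ a → 0 ≤ μ → Hyp G C μ a 0 r w →
    ∀ ν b : ℝ, 0 ≤ ν → ν * (1 + a) ≤ μ → 0 ≤ b → ∀ ℓ : V → ℕ,
      EF G C (exc C ℓ r w b) ≤
        a * ((C.filter (fun y => ℓ y < r + w)).card : ℝ) * Real.exp (-(ν * b))

/-! ### Counting -/

/-- CT: expected number of vertices with root `y` at distance `q` (from helper72's `pot_hasSum` and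
`ker_iter_eq_W`) -/
def CT_stmt : Prop :=
  ∀ (V : Type) [Fintype V] [DecidableEq V] (G : SimpleGraph V) (d : ℕ) (K : HW V), Reg G d →
    K.p = lz G d → ∀ (D : Finset V) (y : V) (q : ℕ), y ∈ D →
    HasSum (fun t => cnt K D y q t)
      (EF G D (fun g => ∑ v, ind (rt D g v = y ∧ dep D g v = q)))

/-- CB: one sided count with exponential weight, killed walk. Blocks of length `h`, `visits'`, mixing. -/
def CB_stmt : Prop :=
  ∀ (V : Type) [Fintype V] [DecidableEq V] (K : HW V) (θ : ℝ) (h₀ h : ℕ), Par K θ h₀ →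
    2 * h₀ ≤ h → 4 * h ≤ Nat.sqrt (Fintype.card V) → ∀ D : Finset V, Hit K D h →
    ∀ (y : V) (q N : ℕ),
      ∑ t ∈ range N, Real.exp (Real.log 2 / (2 * h) * t) * cnt K D y q t ≤ MC θ

/-- CA: a priori count (short words by `Zq_le`, long words as in `phi_bound`: mixing and
`∑_{y ∈ D} ∑_t P_y(avoid D up to t) = n`) -/
def CA_stmt : Prop :=
  ∀ (V : Type) [Fintype V] [DecidableEq V] (K : HW V) (θ : ℝ) (h₀ : ℕ), Par K θ h₀ →
    ∀ D : Finset V, ∀ W ⊆ D, ∀ (ℓ : V → ℕ) (r N : ℕ),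
      ∑ y ∈ W, ∑ t ∈ range N, (if ℓ y ≤ r then cnt K D y (r - ℓ y) t else 0) ≤
        CP θ * (W.card + Nat.sqrt (Fintype.card V) + r)

/-- HY1: hypothesis for a skeleton with small hitting times (from CT, CB) -/
def HY1_stmt : Prop :=
  ∀ (V : Type) [Fintype V] [DecidableEq V] (G : SimpleGraph V) (d : ℕ) (K : HW V) (θ : ℝ)
    (h₀ h : ℕ), Reg G d → K.p = lz G d → Par K θ h₀ → 2 * h₀ ≤ h →
    4 * h ≤ Nat.sqrt (Fintype.card V) → ∀ C : Finset V, C.Nonempty → Hit K C h → ∀ r w : ℕ,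
      Hyp G C (Real.log 2 / (2 * h)) (MC θ * w) 0 r w

/-- HY2: a priori hypothesis (from CT, CA) -/
def HY2_stmt : Prop :=
  ∀ (V : Type) [Fintype V] [DecidableEq V] (G : SimpleGraph V) (d : ℕ) (K : HW V) (θ : ℝ)
    (h₀ : ℕ), Reg G d → K.p = lz G d → Par K θ h₀ → ∀ C : Finset V, C.Nonempty → ∀ r w : ℕ,
    ∀ μ : ℝ, 0 ≤ μ → μ * (r + w) ≤ 1 →
      Hyp G C μ (3 * CP θ * w) (3 * CP θ * w * (Nat.sqrt (Fintype.card V) + r + w)) r w

/-! ### Conclusions of part A -/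

/-- CC: concentration given a skeleton with small hitting times (from TL, EB, HY1) -/
def CC_stmt : Prop :=
  ∀ (V : Type) [Fintype V] [DecidableEq V] (G : SimpleGraph V) (d : ℕ) (K : HW V) (θ : ℝ)
    (h₀ h : ℕ), Reg G d → K.p = lz G d → Par K θ h₀ → 2 * h₀ ≤ h →
    4 * h ≤ Nat.sqrt (Fintype.card V) → ∀ C : Finset V, C.Nonempty → Hit K C h →
    ∀ (ℓ : V → ℕ) (r w : ℕ) (lam x F u : ℝ), 0 < u → 0 < lam → 0 ≤ x →
    lam * (u * (1 + MC θ * w) * (4 * h)) ≤ 1 → EF G C (nb C C ℓ r w) ≤ F →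
    EF G C (fun f => ind (x < |nb C C ℓ r w f - EF G C (nb C C ℓ r w)|)) ≤
      2 * Real.exp (-(lam * x) + F * lam ^ 2 * (u * (1 + MC θ * w) * (4 * h)))
        + (lam * Real.exp (lam * F) * Real.exp (-u) * (MC θ * w)
            + 1 / (2 * u * h) * Real.exp (-(u / 2)))
          * ((C.filter (fun y => ℓ y < r + w)).card : ℝ)

/-- AP: a priori bound for the conditional expectation given any stopping rule (from EM, HY2, G3 and
convexity of `exp`) -/
def AP_stmt : Prop :=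
  ∀ (V : Type) [Fintype V] [DecidableEq V] (G : SimpleGraph V) (d : ℕ) (K : HW V) (θ : ℝ)
    (h₀ : ℕ), Reg G d → K.p = lz G d → Par K θ h₀ → ∀ (o : V) (l : List V) (r w : ℕ) (A u : ℝ),
    1 ≤ A → 1 ≤ w → (r : ℝ) + w ≤ A * Nat.sqrt (Fintype.card V) → 0 ≤ u →
    EF G {o} (fun f => ind (u * (w * Nat.sqrt (Fintype.card V)) <
        EF G (sk {o} f l) (nb (sk {o} f l) (sk {o} f l) (dep {o} f) r w))) ≤
      Real.exp (3 - u / (A * (1 + 3 * CP θ)))

end Pool.Agent.helper90.FN
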