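import Pool.Agent.helper90.FN.Spec

/-!
Inputs of part D (chain and union bounds) from parts B (helper66) and C (helper57), and the modules of part D.
-/

set_option autoImplicit false

open scoped BigOperators Topology
open Filter MeasureTheory

namespace Pool.Agent.helper90.FN

open Finset
open Pool.Agent.helper72.UT (IsFor dep pth rt fors Reg lz)
open Pool.Agent.helper20.HP (ind HW W Par cc run lel lst lazyP tmix ustE height vol Setup CZ CP IsKer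
  wd FinalGoal)

/-- BR: bridge between `PhiD` and the killed walk -/
def BR_stmt : Prop :=
  ∀ (V : Type) [Fintype V] [DecidableEq V] (G : SimpleGraph V) (d : ℕ) (K : HW V), Reg G d →
    K.p = lz G d → ∀ (o : V) (f : V → V) (D : Finset V), f ∈ fors G {o} → Cl {o} D f → ∀ s : ℕ,
    HasSum (fun t => ∑ y ∈ D, if dep {o} f y ≤ s then cnt K D y (s - dep {o} f y) t else 0)
      (PhiD G o f D s 1)

/-- CAP: a priori comparison with a lower level (tower property with `dn`, CT, CB) -/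
def CAP_stmt : Prop :=
  ∀ (V : Type) [Fintype V] [DecidableEq V] (G : SimpleGraph V) (d : ℕ) (K : HW V) (θ : ℝ)
    (h₀ h : ℕ), Reg G d → K.p = lz G d → Par K θ h₀ → 2 * h₀ ≤ h →
    4 * h ≤ Nat.sqrt (Fintype.card V) → ∀ (o : V) (f : V → V) (D : Finset V), f ∈ fors G {o} →
    Cl {o} D f → Hit K D h →
    (∀ s r : ℕ, s ≤ r → PhiD G o f D r 1 ≤
      MC θ * (PhiD G o f D s 1 + ((D.filter (fun x => s < dep {o} f x ∧ dep {o} f x ≤ r)).card : ℝ))) ∧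
    (∀ r : ℕ, PhiD G o f D r 1 ≤ MC θ * ((D.filter (fun x => dep {o} f x ≤ r)).card : ℝ))

/-- BG: `bs` after gluing (from G1) -/
def BG_stmt : Prop :=
  ∀ (V : Type) [Fintype V] [DecidableEq V] (G : SimpleGraph V) (o : V) (f g : V → V) (D : Finset V)
    (r w : ℕ), f ∈ fors G {o} → Cl {o} D f → g ∈ fors G D →
    (∀ v, dep {o} (glue D f g) v = lv D (dep {o} f) g v) ∧
    bs o (glue D f g) r w = nb D D (dep {o} f) r w g +
      ((D.filter (fun x => r ≤ dep {o} f x ∧ dep {o} f x < r + w)).card : ℝ)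

/-- WD: width of the skeleton spanned by a list, monotonicity of `Hit`, and `PhiD` on classes -/
def WD_stmt : Prop :=
  ∀ (V : Type) [Fintype V] [DecidableEq V] (G : SimpleGraph V) (o : V) (f : V → V) (l : List V),
    f ∈ fors G {o} →
    (∀ q, ((sk {o} f l).filter (fun x => dep {o} f x = q)).card ≤ l.length + 1) ∧
    (∀ g ∈ fors G (sk {o} f l), glue (sk {o} f l) f g ∈ fors G {o} ∧
      sk {o} (glue (sk {o} f l) f g) l = sk {o} f l ∧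
      ∀ r w, PhiD G o (glue (sk {o} f l) f g) (sk {o} f l) r w = PhiD G o f (sk {o} f l) r w) ∧
    (∀ (K : HW V) (D D' : Finset V) (h : ℕ), D ⊆ D' → Hit K D h → Hit K D' h)

/-- SL1: concentration of one window sum given the skeleton of `l` (from G3, G4, BG, WD, CC, AP).
`F = v w √n`; on the event `EF nb > F` use AP. -/
def SL1_stmt : Prop :=
  ∀ (V : Type) [Fintype V] [DecidableEq V] (G : SimpleGraph V) (d : ℕ) (K : HW V) (θ : ℝ)
    (h₀ h : ℕ), Reg G d → K.p = lz G d → Par K θ h₀ → 2 * h₀ ≤ h →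
    4 * h ≤ Nat.sqrt (Fintype.card V) → ∀ (o : V) (l : List V) (r w : ℕ) (A lam x u v m : ℝ),
    1 ≤ A → 1 ≤ w → (r : ℝ) + w ≤ A * Nat.sqrt (Fintype.card V) → 0 < u → 0 < lam → 0 ≤ x →
    0 ≤ v → 0 ≤ m → lam * (u * (1 + MC θ * w) * (4 * h)) ≤ 1 →
    EF G {o} (fun f => ind (Hit K (sk {o} f l) h ∧ ((sk {o} f l).card : ℝ) ≤ m ∧
        x < |bs o f r w - PhiD G o f (sk {o} f l) r w|)) ≤
      2 * Real.exp (-(lam * x) + (v * (w * Nat.sqrt (Fintype.card V))) * lam ^ 2 *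
          (u * (1 + MC θ * w) * (4 * h)))
        + (lam * Real.exp (lam * (v * (w * Nat.sqrt (Fintype.card V)))) * Real.exp (-u) *
            (MC θ * w) + 1 / (2 * u * h) * Real.exp (-(u / 2))) * m
        + Real.exp (3 - v / (A * (1 + 3 * CP θ)))

/-- PB (part B, helper66): the skeleton spanned by `J` uniform points is good -/
def BGoal : Prop := ∀ (S : Setup) (K : ∀ k, HW (S.V k)), IsKer S K →
  ∃ c C₁ C₂ : ℝ, 0 < c ∧ 1 ≤ C₁ ∧ 0 < C₂ ∧ ∀ᶠ k in atTop, ∀ J : ℕ, 1 ≤ J →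
    (J : ℝ) ≤ (Fintype.card (S.V k) : ℝ) ^ c →
    avJ J (fun l => EF (S.G k) {S.o k} (fun f => ind (¬ (
        Hit (K k) (sk {S.o k} f l) ⌊(Nat.sqrt (Fintype.card (S.V k)) : ℝ) * (J : ℝ) ^ (-c)⌋₊ ∧
        ((sk {S.o k} f l).card : ℝ) ≤ (J : ℝ) ^ C₁ * Nat.sqrt (Fintype.card (S.V k)))))) ≤
      C₂ * (J : ℝ) ^ (-c)

/-- PC (part C, helper57): macroscopic smoothness of the conditional mean given a skeleton -/
def CMGoal : Prop := ∀ (S : Setup) (K : ∀ k, HW (S.V k)), IsKer S K → ∀ A : ℝ,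
  ∃ c C : ℝ, 0 < c ∧ 1 ≤ C ∧ ∀ᶠ k in atTop,
    ∀ f ∈ fors (S.G k) {S.o k}, ∀ D : Finset (S.V k), Cl {S.o k} D f → ∀ B : ℝ, 1 ≤ B →
    (D.card : ℝ) ≤ B * Nat.sqrt (Fintype.card (S.V k)) →
    (∀ q, ((D.filter (fun x => dep {S.o k} f x = q)).card : ℝ) ≤ B) →
    ∀ r r' w : ℕ, (r : ℝ) + w ≤ A * Nat.sqrt (Fintype.card (S.V k)) →
      (r' : ℝ) + w ≤ A * Nat.sqrt (Fintype.card (S.V k)) →
      wd (Fintype.card (S.V k)) S.a ≤ w →
      |PhiD (S.G k) (S.o k) f D r w - PhiD (S.G k) (S.o k) f D r' w| ≤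
        C * B ^ C * (w * Nat.sqrt (Fintype.card (S.V k))) *
          (|(r : ℝ) - r'| / Nat.sqrt (Fintype.card (S.V k)) + (Fintype.card (S.V k) : ℝ) ^ (-c))

/-- PU (part C, helper57): flatness at the unit scale -/
def CUGoal : Prop := ∀ (S : Setup) (K : ∀ k, HW (S.V k)), IsKer S K → ∀ A Q ε : ℝ, 0 < ε →
  ∃ c : ℝ, 0 < c ∧ ∀ᶠ k in atTop,
    ∀ f ∈ fors (S.G k) {S.o k}, ∀ D : Finset (S.V k), Cl {S.o k} D f →
    (D.card : ℝ) ≤ (Fintype.card (S.V k) : ℝ) ^ c * Nat.sqrt (Fintype.card (S.V k)) →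
    (∀ q, ((D.filter (fun x => dep {S.o k} f x = q)).card : ℝ) ≤
      (Fintype.card (S.V k) : ℝ) ^ c) →
    (∀ y : ℕ, (y : ℝ) ≤ A * Nat.sqrt (Fintype.card (S.V k)) →
      PhiD (S.G k) (S.o k) f D y 1 ≤ Q * Nat.sqrt (Fintype.card (S.V k))) →
    ∀ r r' : ℕ, (r : ℝ) ≤ A * Nat.sqrt (Fintype.card (S.V k)) →
      (r' : ℝ) ≤ A * Nat.sqrt (Fintype.card (S.V k)) →
      |(r : ℝ) - r'| ≤ wd (Fintype.card (S.V k)) S.a →
      |PhiD (S.G k) (S.o k) f D r 1 - PhiD (S.G k) (S.o k) f D r' 1| ≤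
        ε * Nat.sqrt (Fintype.card (S.V k))

/-- SL2 (scale lemma, from SL1, WD, BGoal, CMGoal; `par_eventually`, `tmix_small`, `M2_reg`, `M2_kernel` of
helper72): at scale `J` the window sums at distance
`J^{-C} √n` are equal up to `J^{-c} w √n` -/
def SLGoal : Prop := ∀ (S : Setup) (K : ∀ k, HW (S.V k)), IsKer S K → ∀ A : ℝ, 1 ≤ A →
  ∃ c C J₀ : ℝ, 0 < c ∧ 1 ≤ C ∧ 1 ≤ J₀ ∧ ∀ᶠ k in atTop, ∀ J : ℕ, J₀ ≤ J →
    (J : ℝ) ^ C ≤ (Fintype.card (S.V k) : ℝ) ^ (S.a / 8) →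
    ∀ w : ℕ, wd (Fintype.card (S.V k)) S.a ≤ w → ∀ P : Finset (ℕ × ℕ),
    (∀ p ∈ P, (p.1 : ℝ) + w ≤ A * Nat.sqrt (Fintype.card (S.V k)) ∧
      (p.2 : ℝ) + w ≤ A * Nat.sqrt (Fintype.card (S.V k)) ∧
      |(p.1 : ℝ) - p.2| * (J : ℝ) ^ C ≤ Nat.sqrt (Fintype.card (S.V k))) →
    EF (S.G k) {S.o k} (fun f => ind (∃ p ∈ P,
        (J : ℝ) ^ (-c) * (w * Nat.sqrt (Fintype.card (S.V k))) <
          |bs (S.o k) f p.1 w - bs (S.o k) f p.2 w|)) ≤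
      (J : ℝ) ^ (-c) + P.card * Real.exp (-(J : ℝ) ^ c)

/-- SU (unit scale lemma, from SL1, WD, BGoal, CUGoal, CAP): if the block averages at scale about `wd`
are bounded then the profile is flat at scale `2 wd` -/
def SUGoal : Prop := ∀ (S : Setup) (K : ∀ k, HW (S.V k)), IsKer S K → ∀ A Q ε η : ℝ, 1 ≤ A →
  0 < ε → 0 < η → ∀ᶠ k in atTop, ∀ w : ℕ, wd (Fintype.card (S.V k)) S.a ≤ w →
    w ≤ 2 * wd (Fintype.card (S.V k)) S.a →
    EF (S.G k) {S.o k} (fun f => ind (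
      (∀ i : ℕ, (i : ℝ) * w ≤ A * Nat.sqrt (Fintype.card (S.V k)) →
        bs (S.o k) f (i * w) w ≤ Q * (w * Nat.sqrt (Fintype.card (S.V k)))) ∧
      (∃ r r' : ℕ, (r : ℝ) ≤ A * Nat.sqrt (Fintype.card (S.V k)) ∧
        (r' : ℝ) ≤ A * Nat.sqrt (Fintype.card (S.V k)) ∧ |(r : ℝ) - r'| ≤ w ∧
        ε * Nat.sqrt (Fintype.card (S.V k)) < |bs (S.o k) f r 1 - bs (S.o k) f r' 1|))) ≤ η

/-- CH (chain, from SLGoal, SUGoal): asymptotic equicontinuity of the height profile -/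
def EquiGoal : Prop := ∀ (S : Setup) (A ε η : ℝ), 0 < ε → 0 < η → ∃ δ : ℝ, 0 < δ ∧
  ∀ᶠ k in atTop, ustE (S.G k) (fun T => ind (∃ r r' : ℕ,
    (r : ℝ) ≤ A * Real.sqrt (Fintype.card (S.V k)) ∧
    (r' : ℝ) ≤ A * Real.sqrt (Fintype.card (S.V k)) ∧
    |(r : ℝ) - r'| ≤ δ * Real.sqrt (Fintype.card (S.V k)) ∧
    ε * Real.sqrt (Fintype.card (S.V k)) <
      |(height T (S.o k) r : ℝ) - height T (S.o k) r'|)) ≤ η

/-- SL2 -/
def SL2_stmt : Prop := SL1_stmt → WD_stmt → BGoal → CMGoal → SLGoal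

/-- SU -/
def SU_stmt : Prop := SL1_stmt → WD_stmt → BGoal → CUGoal → CAP_stmt → SUGoal

/-- CH -/
def CH_stmt : Prop := SLGoal → SUGoal → EquiGoal

/-- `Ψ` is bounded, and continuous for uniform convergence on compact subsets of `(0, ∞)` at every function
which is continuous on `(0, ∞)` -/
structure CtsFunctional (Ψ : (ℝ → ℝ) → ℝ) : Prop where
  bdd : ∃ M, ∀ g, |Ψ g| ≤ M
  cts : ∀ g : ℝ → ℝ, ContinuousOn g (Set.Ioi 0) → ∀ ε : ℝ, 0 < ε → ∃ a b δ : ℝ, 0 < a ∧ a < b ∧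
    0 < δ ∧ ∀ g' : ℝ → ℝ, (∀ s ∈ Set.Icc a b, |g' s - g s| ≤ δ) → |Ψ g' - Ψ g| ≤ ε

/-- FE: finite dimensional convergence and equicontinuity in probability imply functional convergence
(Lipschitz envelopes `Ψ_m^+ g = sup_{g'} (Ψ g' - m min(1, sup_{[1/m, m]} |g - g'|))`, step interpolation on
a grid, dominated convergence) -/
def FE_stmt : Prop :=
  ∀ (I : ℕ → Type) [∀ k, Fintype (I k)] (p : ∀ k, I k → ℝ) (X : ∀ k, I k → ℝ → ℝ),
    (∀ k i, 0 ≤ p k i) → (∀ k, ∑ i, p k i = 1) →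
    ∀ (Ω : Type) (_ : MeasurableSpace Ω) (P : Measure Ω) (_ : IsProbabilityMeasure P)
      (ell : ℝ → Ω → ℝ), (∀ r, 0 < r → AEMeasurable (ell r) P) →
      (∀ᵐ ω ∂P, ContinuousOn (fun r => ell r ω) (Set.Ioi 0)) →
      (∀ (m : ℕ) (s : Fin m → ℝ), (∀ i, 0 < s i) →
        ∀ F : BoundedContinuousFunction (Fin m → ℝ) ℝ,
        Tendsto (fun k => ∑ i, p k i * F (fun j => X k i (s j))) atTop
          (𝓝 (∫ ω, F (fun j => ell (s j) ω) ∂P))) →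
      (∀ a b ε η : ℝ, 0 < a → a < b → 0 < ε → 0 < η → ∃ δ : ℝ, 0 < δ ∧ ∀ᶠ k in atTop,
        ∑ i, p k i * ind (∃ s ∈ Set.Icc a b, ∃ s' ∈ Set.Icc a b, |s - s'| ≤ δ ∧
          ε < |X k i s - X k i s'|) ≤ η) →
      ∀ Ψ : (ℝ → ℝ) → ℝ, CtsFunctional Ψ →
        Tendsto (fun k => ∑ i, p k i * Ψ (X k i)) atTop (𝓝 (∫ ω, Ψ (fun r => ell r ω) ∂P))

/-- the functional form of the final theorem -/
def FuncGoal : Prop := ∀ (S : Setup) (β : ℕ → ℝ) (b₁ b₂ : ℝ), 0 < b₁ →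
  (∀ k, b₁ ≤ β k ∧ β k ≤ b₂) →
  ∀ (Ω : Type) (_ : MeasurableSpace Ω) (P : Measure Ω) (_ : IsProbabilityMeasure P)
    (ell : ℝ → Ω → ℝ),
    (∀ r, 0 < r → AEMeasurable (ell r) P) →
    (∀ᵐ ω ∂P, ContinuousOn (fun r => ell r ω) (Set.Ioi 0)) →
    (∀ᵐ ω ∂P, ∀ r, 0 < r → IntervalIntegrable (fun u => ell u ω) volume 0 r) →
    (∀ (m : ℕ) (s : Fin m → ℝ), (∀ i, 0 < s i) → ∀ F : BoundedContinuousFunction (Fin m → ℝ) ℝ,
      Tendsto (fun k => ustE (S.G k) (fun T => F (fun i =>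
          (vol T (S.o k) ⌊s i * β k * Real.sqrt (Fintype.card (S.V k))⌋₊ : ℝ)
            / (Fintype.card (S.V k) : ℝ)))) atTop
        (𝓝 (∫ ω, F (fun i => ∫ u in (0 : ℝ)..(s i), ell u ω) ∂P))) →
    ∀ Ψ : (ℝ → ℝ) → ℝ, CtsFunctional Ψ →
      Tendsto (fun k => ustE (S.G k) (fun T => Ψ (fun s =>
          β k / Real.sqrt (Fintype.card (S.V k))
            * (height T (S.o k) ⌊s * β k * Real.sqrt (Fintype.card (S.V k))⌋₊ : ℝ)))) atTop
        (𝓝 (∫ ω, Ψ (fun r => ell r ω) ∂P))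

/-- FF: final assembly -/
def FF_stmt : Prop := FE_stmt → EquiGoal → FinalGoal → FuncGoal

end Pool.Agent.helper90.FN
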