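import Pool.Agent.helper90.FN.Goals

/-! Deterministic and analytic parts of the chain argument (module CH). -/

set_option autoImplicit false

open scoped BigOperators Topology
open Filter MeasureTheory

namespace Pool.Agent.helper90.FN

open Finset
open Pool.Agent.helper72.UT (IsFor dep pth rt fors Reg lz)
open Pool.Agent.helper20.HP (ind HW W Par cc run lel lst lazyP tmix ustE height vol Setup CZ CP IsKer
  wd FinalGoal)

section EFlemmas

variable {V : Type} [Fintype V] [DecidableEq V]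

theorem CH_EF_mono (G : SimpleGraph V) (B : Finset V) (F F' : (V → V) → ℝ)
    (h : ∀ f ∈ fors G B, F f ≤ F' f) : EF G B F ≤ EF G B F' := by
  unfold EF
  exact div_le_div_of_nonneg_right (Finset.sum_le_sum h) (by positivity)

theorem CH_EF_add (G : SimpleGraph V) (B : Finset V) (F F' : (V → V) → ℝ) :
    EF G B (fun f => F f + F' f) = EF G B F + EF G B F' := by
  unfold EF
  rw [Finset.sum_add_distrib, add_div]

theorem CH_EF_sum {ι : Type} (G : SimpleGraph V) (B : Finset V) (s : Finset ι)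
    (F : ι → (V → V) → ℝ) :
    EF G B (fun f => ∑ i ∈ s, F i f) = ∑ i ∈ s, EF G B (F i) := by
  unfold EF
  rw [Finset.sum_comm, Finset.sum_div]

theorem CH_ind_nonneg (p : Prop) : 0 ≤ ind p := by
  unfold Pool.Agent.helper20.HP.ind; split_ifs <;> norm_num

theorem CH_ind_le_one (p : Prop) : ind p ≤ 1 := by
  unfold Pool.Agent.helper20.HP.ind; split_ifs <;> norm_num

theorem CH_ind_true {p : Prop} (h : p) : ind p = 1 := by
  unfold Pool.Agent.helper20.HP.ind; rw [if_pos h]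

theorem CH_ind_false {p : Prop} (h : ¬ p) : ind p = 0 := by
  unfold Pool.Agent.helper20.HP.ind; rw [if_neg h]

theorem CH_ind_mono {p q : Prop} (h : p → q) : ind p ≤ ind q := by
  by_cases hp : p
  · rw [CH_ind_true hp, CH_ind_true (h hp)]
  · rw [CH_ind_false hp]; exact CH_ind_nonneg q

theorem CH_bs_nonneg (o : V) (f : V → V) (r w : ℕ) : 0 ≤ bs o f r w :=
  Finset.sum_nonneg fun _ _ => CH_ind_nonneg _

theorem CH_bs_add (o : V) (f : V → V) (r w₁ w₂ : ℕ) :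
    bs o f r (w₁ + w₂) = bs o f r w₁ + bs o f (r + w₁) w₂ := by
  unfold bs
  rw [← Finset.sum_add_distrib]
  refine Finset.sum_congr rfl fun v _ => ?_
  by_cases h1 : r ≤ dep {o} f v ∧ dep {o} f v < r + w₁
  · rw [CH_ind_true h1, CH_ind_true (by omega), CH_ind_false (by omega)]; norm_num
  · by_cases h2 : r + w₁ ≤ dep {o} f v ∧ dep {o} f v < r + w₁ + w₂
    · rw [CH_ind_false h1, CH_ind_true (by omega), CH_ind_true h2]; norm_num
    · rw [CH_ind_false h1, CH_ind_false h2, CH_ind_false (by omega)]; norm_num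

theorem CH_bs_le (o : V) (f : V → V) (r w : ℕ) : bs o f r w ≤ Fintype.card V := by
  unfold bs
  calc ∑ v, ind (r ≤ dep {o} f v ∧ dep {o} f v < r + w) ≤ ∑ _v : V, (1 : ℝ) :=
        Finset.sum_le_sum fun v _ => CH_ind_le_one _
    _ = Fintype.card V := by simp

theorem CH_bs_sum (o : V) (f : V → V) (r w : ℕ) :
    bs o f r w = ∑ j ∈ range w, bs o f (r + j) 1 := by
  induction w with
  | zero =>
    unfold bs
    simp only [Finset.range_zero, Finset.sum_empty]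
    refine Finset.sum_eq_zero fun v _ => CH_ind_false (by omega)
  | succ w ih => rw [CH_bs_add, ih, Finset.sum_range_succ]

end EFlemmas

/-- block average -/
noncomputable def CH_av (F : ℕ → ℕ → ℝ) (m i : ℕ) : ℝ := F (i * 2 ^ m) (2 ^ m) / 2 ^ m

theorem CH_chain (F : ℕ → ℕ → ℝ) (hadd : ∀ r w₁ w₂, F r (w₁ + w₂) = F r w₁ + F (r + w₁) w₂)
    (L : ℝ) (e : ℕ → ℝ) (N M : ℕ) :
    ∀ m₀, M ≤ m₀ → (∀ m, M < m → m ≤ m₀ → ∀ i, i * 2 ^ m ≤ N →
      |F (i * 2 ^ m) (2 ^ (m - 1)) - F (i * 2 ^ m + 2 ^ (m - 1)) (2 ^ (m - 1))| ≤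
        e m * (2 ^ (m - 1) * L)) →
    ∀ r, r ≤ N → |CH_av F M (r / 2 ^ M) - CH_av F m₀ (r / 2 ^ m₀)| ≤
      ∑ m ∈ Finset.Ioc M m₀, e m / 2 * L := by
  intro m₀ hm
  induction m₀, hm using Nat.le_induction with
  | base =>
    intro _ r _
    simp
  | succ m hMm ih =>
    intro h r hr
    have h1 := ih (fun m' h1 h2 i hi => h m' h1 (by omega) i hi) r hr
    have h2 : |CH_av F m (r / 2 ^ m) - CH_av F (m + 1) (r / 2 ^ (m + 1))| ≤ e (m + 1) / 2 * L := by
      set i := r / 2 ^ (m + 1) with hi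
      have hdiv : i = (r / 2 ^ m) / 2 := by
        rw [hi, Nat.div_div_eq_div_mul, ← pow_succ]
      have hiN : i * 2 ^ (m + 1) ≤ N := le_trans (Nat.div_mul_le_self r _) hr
      have h3 := h (m + 1) (by omega) le_rfl i hiN
      rw [Nat.add_sub_cancel] at h3
      have hp : (0 : ℝ) < 2 ^ m := by positivity
      have e0 : i * 2 ^ (m + 1) = (2 * i) * 2 ^ m := by rw [pow_succ]; ring
      have e1 : i * 2 ^ (m + 1) + 2 ^ m = (2 * i + 1) * 2 ^ m := by rw [pow_succ]; ring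
      have e2 : F (i * 2 ^ (m + 1)) (2 ^ (m + 1)) =
          F ((2 * i) * 2 ^ m) (2 ^ m) + F ((2 * i + 1) * 2 ^ m) (2 ^ m) := by
        have : (2 : ℕ) ^ (m + 1) = 2 ^ m + 2 ^ m := by rw [pow_succ]; ring
        conv_lhs => rw [this]
        rw [show i * (2 ^ m + 2 ^ m) = (2 * i) * 2 ^ m by ring, hadd,
          show 2 * i * 2 ^ m + 2 ^ m = (2 * i + 1) * 2 ^ m by ring]
      rw [e0] at h3
      rw [show 2 * i * 2 ^ m + 2 ^ m = (2 * i + 1) * 2 ^ m by ring] at h3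
      set X := F ((2 * i) * 2 ^ m) (2 ^ m) with hX
      set Y := F ((2 * i + 1) * 2 ^ m) (2 ^ m) with hY
      have h4 : |X - Y| / (2 * 2 ^ m) ≤ e (m + 1) / 2 * L := by
        rw [div_le_iff₀ (by positivity)]
        calc |X - Y| ≤ e (m + 1) * (2 ^ m * L) := h3
          _ = e (m + 1) / 2 * L * (2 * 2 ^ m) := by ring
      rcases Nat.mod_two_eq_zero_or_one (r / 2 ^ m) with h0 | h0
      · have hri : r / 2 ^ m = 2 * i := by omega
        rw [hri]
        have : CH_av F m (2 * i) - CH_av F (m + 1) i = (X - Y) / (2 * 2 ^ m) := by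
          unfold CH_av
          rw [e2, ← hX, pow_succ]
          field_simp
          ring
        rw [this, abs_div, abs_of_pos (show (0 : ℝ) < 2 * 2 ^ m by positivity)]
        exact h4
      · have hri : r / 2 ^ m = 2 * i + 1 := by omega
        rw [hri]
        have : CH_av F m (2 * i + 1) - CH_av F (m + 1) i = -((X - Y) / (2 * 2 ^ m)) := by
          unfold CH_av
          rw [e2, ← hY, pow_succ]
          field_simp
          ring
        rw [this, abs_neg, abs_div, abs_of_pos (show (0 : ℝ) < 2 * 2 ^ m by positivity)]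
        exact h4
    rw [Finset.sum_Ioc_succ_top (by omega)]
    calc |CH_av F M (r / 2 ^ M) - CH_av F (m + 1) (r / 2 ^ (m + 1))|
        ≤ |CH_av F M (r / 2 ^ M) - CH_av F m (r / 2 ^ m)|
          + |CH_av F m (r / 2 ^ m) - CH_av F (m + 1) (r / 2 ^ (m + 1))| := abs_sub_le _ _ _
      _ ≤ _ := add_le_add h1 h2

/-- the functions `t^s e^{-t}` are bounded -/
theorem CH_exp_bound (s : ℝ) (_hs : 0 ≤ s) : ∃ B : ℝ, 0 < B ∧ ∀ t : ℝ, 0 ≤ t →
    t ^ s * Real.exp (-t) ≤ B := by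
  obtain ⟨N, hN⟩ := exists_nat_ge s
  refine ⟨1 + (N.factorial : ℝ), by positivity, fun t ht => ?_⟩
  have h1 : t ^ s ≤ 1 + t ^ N := by
    rcases le_total t 1 with h | h
    · have : t ^ s ≤ 1 := Real.rpow_le_one ht h _hs
      have : 0 ≤ t ^ N := by positivity
      linarith
    · have : t ^ s ≤ t ^ (N : ℝ) := Real.rpow_le_rpow_of_exponent_le h hN
      rw [Real.rpow_natCast] at this
      linarith
  have h2 : t ^ N ≤ N.factorial * Real.exp t := by
    have := Real.pow_div_factorial_le_exp t ht N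
    rwa [div_le_iff₀ (by positivity), mul_comm] at this
  have h3 : (1 : ℝ) ≤ Real.exp t := Real.one_le_exp ht
  rw [Real.exp_neg, ← div_eq_mul_inv, div_le_iff₀ (Real.exp_pos t)]
  calc t ^ s ≤ 1 + t ^ N := h1
    _ ≤ 1 * Real.exp t + N.factorial * Real.exp t := by linarith
    _ = (1 + N.factorial) * Real.exp t := by ring

/-- scale parameters -/
theorem CH_scale (c C : ℝ) (hc : 0 < c) (hC : 1 ≤ C) : ∃ B : ℝ, 0 < B ∧ ∀ x : ℝ, 1 ≤ x →
    1 ≤ ⌊x ^ (1 / C)⌋₊ ∧ ((⌊x ^ (1 / C)⌋₊ : ℕ) : ℝ) ^ C ≤ x ∧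
    ((⌊x ^ (1 / C)⌋₊ : ℕ) : ℝ) ^ (-c) ≤ B * x ^ (-(c / C)) ∧
    x * Real.exp (-((⌊x ^ (1 / C)⌋₊ : ℕ) : ℝ) ^ c) ≤ B * x ^ (-(c / C)) := by
  obtain ⟨B₀, hB₀, hB⟩ := CH_exp_bound ((C + c) / c) (by positivity)
  have hC0 : 0 < C := by linarith
  refine ⟨2 ^ c + 2 ^ C * B₀ * 2 ^ c, by positivity, fun x hx => ?_⟩
  have hx0 : 0 < x := by linarith
  set y := x ^ (1 / C) with hy
  have hy1 : 1 ≤ y := Real.one_le_rpow hx (by positivity)
  set J := ⌊y⌋₊ with hJ
  have hJ1 : 1 ≤ J := by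
    rw [hJ]; exact Nat.le_floor (by simpa using hy1)
  have hJ1R : (1 : ℝ) ≤ J := by exact_mod_cast hJ1
  have hJ0 : (0 : ℝ) < J := by linarith
  have hJy : (J : ℝ) ≤ y := Nat.floor_le (by linarith)
  have hyJ : y < J + 1 := Nat.lt_floor_add_one y
  have hyJ2 : y ≤ 2 * J := by linarith
  have hyC : y ^ C = x := by
    rw [hy, ← Real.rpow_mul hx0.le, one_div, inv_mul_cancel₀ hC0.ne', Real.rpow_one]
  have h1 : (J : ℝ) ^ C ≤ x := by
    rw [← hyC]; exact Real.rpow_le_rpow hJ0.le hJy hC0.le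
  have h2 : x ≤ 2 ^ C * (J : ℝ) ^ C := by
    rw [← hyC, ← Real.mul_rpow (by norm_num) hJ0.le]
    exact Real.rpow_le_rpow (by linarith) hyJ2 hC0.le
  have h3 : (J : ℝ) ^ (-c) ≤ 2 ^ c * x ^ (-(c / C)) := by
    have e1 : x ^ (-(c / C)) = y ^ (-c) := by
      rw [hy, ← Real.rpow_mul hx0.le]
      congr 1
      field_simp
    rw [e1, Real.rpow_neg hJ0.le, Real.rpow_neg (by linarith : (0 : ℝ) ≤ y), ← div_eq_mul_inv,
      le_div_iff₀ (by positivity), inv_mul_le_iff₀ (by positivity)]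
    calc y ^ c ≤ (2 * J) ^ c := Real.rpow_le_rpow (by linarith) hyJ2 hc.le
      _ = 2 ^ c * (J : ℝ) ^ c := Real.mul_rpow (by norm_num) hJ0.le
      _ = (J : ℝ) ^ c * 2 ^ c := mul_comm _ _
  have hxk : 0 < x ^ (-(c / C)) := Real.rpow_pos_of_pos hx0 _
  refine ⟨hJ1, h1, ?_, ?_⟩
  · refine le_trans h3 ?_
    refine mul_le_mul_of_nonneg_right ?_ hxk.le
    have : (0 : ℝ) ≤ 2 ^ C * B₀ * 2 ^ c := by positivity
    linarith
  · have h4 : (J : ℝ) ^ C * Real.exp (-(J : ℝ) ^ c) ≤ B₀ * (J : ℝ) ^ (-c) := by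
      have h5 := hB ((J : ℝ) ^ c) (by positivity)
      rw [← Real.rpow_mul hJ0.le] at h5
      have e2 : c * ((C + c) / c) = C + c := by field_simp
      rw [e2, Real.rpow_add hJ0] at h5
      rw [Real.rpow_neg hJ0.le, ← div_eq_mul_inv, le_div_iff₀ (by positivity)]
      calc (J : ℝ) ^ C * Real.exp (-(J : ℝ) ^ c) * (J : ℝ) ^ c
          = (J : ℝ) ^ C * (J : ℝ) ^ c * Real.exp (-(J : ℝ) ^ c) := by ring
        _ ≤ B₀ := h5
    calc x * Real.exp (-(J : ℝ) ^ c) ≤ 2 ^ C * (J : ℝ) ^ C * Real.exp (-(J : ℝ) ^ c) :=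
          mul_le_mul_of_nonneg_right h2 (Real.exp_pos _).le
      _ = 2 ^ C * ((J : ℝ) ^ C * Real.exp (-(J : ℝ) ^ c)) := by ring
      _ ≤ 2 ^ C * (B₀ * (J : ℝ) ^ (-c)) := mul_le_mul_of_nonneg_left h4 (by positivity)
      _ ≤ 2 ^ C * (B₀ * (2 ^ c * x ^ (-(c / C)))) := by
          refine mul_le_mul_of_nonneg_left (mul_le_mul_of_nonneg_left h3 hB₀.le) (by positivity)
      _ = (2 ^ C * B₀ * 2 ^ c) * x ^ (-(c / C)) := by ring
      _ ≤ (2 ^ c + 2 ^ C * B₀ * 2 ^ c) * x ^ (-(c / C)) := by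
          refine mul_le_mul_of_nonneg_right ?_ hxk.le
          have : (0 : ℝ) ≤ 2 ^ c := by positivity
          linarith

/-- geometric sum over the scales -/
theorem CH_geom (κ L : ℝ) (hκ : 0 < κ) (hL : 0 < L) (M m₀ : ℕ) :
    ∑ m ∈ Finset.Ioc M m₀, (L / 2 ^ (m + 1)) ^ (-κ) ≤
      (1 - (2 : ℝ) ^ (-κ))⁻¹ * (L / 2 ^ (m₀ + 1)) ^ (-κ) := by
  set ρ : ℝ := 2 ^ (-κ) with hρ
  have hρ0 : 0 < ρ := by positivity
  have hρ1 : ρ < 1 := by
    rw [hρ]; exact Real.rpow_lt_one_of_one_lt_of_neg (by norm_num) (by linarith)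
  have h1 : ∀ m ∈ Finset.Ioc M m₀, (L / 2 ^ (m + 1)) ^ (-κ) =
      ρ ^ (m₀ - m) * (L / 2 ^ (m₀ + 1)) ^ (-κ) := by
    intro m hm
    rw [Finset.mem_Ioc] at hm
    have e1 : L / 2 ^ (m + 1) = (2 : ℝ) ^ (m₀ - m) * (L / 2 ^ (m₀ + 1)) := by
      have : (2 : ℝ) ^ (m₀ + 1) = 2 ^ (m₀ - m) * 2 ^ (m + 1) := by
        rw [← pow_add]; congr 1; omega
      rw [this]
      field_simp
    rw [e1, Real.mul_rpow (by positivity) (by positivity)]
    congr 1
    rw [hρ, ← Real.rpow_natCast, ← Real.rpow_natCast, ← Real.rpow_mul (by norm_num),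
      ← Real.rpow_mul (by norm_num)]
    congr 1
    ring
  rw [Finset.sum_congr rfl h1, ← Finset.sum_mul]
  refine mul_le_mul_of_nonneg_right ?_ (by positivity)
  have h2 : ∑ m ∈ Finset.Ioc M m₀, ρ ^ (m₀ - m) ≤ ∑ j ∈ Finset.range (m₀ + 1), ρ ^ j := by
    rw [← Finset.sum_range_reflect (fun j => ρ ^ j) (m₀ + 1)]
    refine le_trans (le_of_eq ?_) (Finset.sum_le_sum_of_subset_of_nonneg
      (s := Finset.Ioc M m₀) ?_ fun _ _ _ => by positivity)
    · refine Finset.sum_congr rfl fun m _ => ?_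
      congr 1
    · intro m hm
      rw [Finset.mem_Ioc] at hm
      rw [Finset.mem_range]; omega
  refine le_trans h2 ?_
  have h3 := Summable.sum_le_tsum (Finset.range (m₀ + 1)) (fun j _ => pow_nonneg hρ0.le j)
    (summable_geometric_of_lt_one hρ0.le hρ1)
  rwa [tsum_geometric_of_lt_one hρ0.le hρ1] at h3

end Pool.Agent.helper90.FN
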