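import Pool.Agent.helper90.FN.CHa
import Pool.Agent.helper90.FN.Goals2

/-! Chain argument, forest form (interface Goals2). -/

set_option autoImplicit false

open scoped BigOperators Topology
open Filter MeasureTheory

namespace Pool.Agent.helper90.FN

open Finset
open Pool.Agent.helper72.UT (IsFor dep pth rt fors Reg lz)
open Pool.Agent.helper20.HP (ind HW W Par cc run lel lst lazyP tmix ustE height vol Setup CZ CP IsKer
  wd FinalGoal)

/-- elementary facts on the mesoscopic scale -/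
theorem CH_sizes (S : Setup) (δ : ℝ) (hδ : 0 < δ) : ∀ᶠ k in atTop,
    1 ≤ Nat.sqrt (Fintype.card (S.V k)) ∧
    1 ≤ wd (Fintype.card (S.V k)) S.a ∧
    8 * (wd (Fintype.card (S.V k)) S.a : ℝ) ≤ δ * Nat.sqrt (Fintype.card (S.V k)) ∧
    (Nat.sqrt (Fintype.card (S.V k)) : ℝ) ≤
      4 * wd (Fintype.card (S.V k)) S.a * (Fintype.card (S.V k) : ℝ) ^ (S.a / 8) := by
  have ha : 0 < S.a := lt_min S.α_pos (by norm_num)
  have ha4 : S.a ≤ 1 / 4 := min_le_right _ _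
  have hcard : Tendsto (fun k => (Fintype.card (S.V k) : ℝ)) atTop atTop :=
    tendsto_natCast_atTop_atTop.comp S.card
  have e1 : ∀ᶠ k in atTop, (4 : ℝ) ≤ Fintype.card (S.V k) := hcard.eventually_ge_atTop 4
  have e2 : ∀ᶠ k in atTop, (2 : ℝ) ≤ (Fintype.card (S.V k) : ℝ) ^ (1 / 2 - S.a / 8) :=
    ((tendsto_rpow_atTop (by linarith : 0 < 1 / 2 - S.a / 8)).comp hcard).eventually_ge_atTop 2
  have e3 : ∀ᶠ k in atTop, (16 / δ) ≤ (Fintype.card (S.V k) : ℝ) ^ (S.a / 8) :=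
    ((tendsto_rpow_atTop (by linarith : 0 < S.a / 8)).comp hcard).eventually_ge_atTop _
  filter_upwards [e1, e2, e3] with k h1 h2 h3
  set n := Fintype.card (S.V k) with hn
  set L := Nat.sqrt n with hL
  have hn0 : (0 : ℝ) < n := by linarith
  have hn4 : 4 ≤ n := by exact_mod_cast h1
  have hL1 : 1 ≤ L := Nat.le_sqrt.2 (by omega)
  have hL1R : (1 : ℝ) ≤ L := by exact_mod_cast hL1
  have hLn : (L : ℝ) * L ≤ n := by exact_mod_cast Nat.sqrt_le n
  have hnL : (n : ℝ) ≤ (2 * L) * (2 * L) := by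
    have h3 := Nat.lt_succ_sqrt n
    have h4 : (n : ℝ) < (L + 1) * (L + 1) := by exact_mod_cast h3
    nlinarith
  set x : ℝ := (n : ℝ) ^ (1 / 2 - S.a / 8) with hx
  have hwx : (wd n S.a : ℝ) ≤ x := Nat.floor_le (by positivity)
  have hxw : x < wd n S.a + 1 := Nat.lt_floor_add_one x
  have hw1 : 1 ≤ wd n S.a := Nat.le_floor (by push_cast; linarith)
  have hw1R : (1 : ℝ) ≤ wd n S.a := by exact_mod_cast hw1
  set z : ℝ := (n : ℝ) ^ (S.a / 8) with hz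
  have hz0 : 0 < z := by positivity
  have hxz : x * z = Real.sqrt n := by
    rw [hx, hz, ← Real.rpow_add hn0, Real.sqrt_eq_rpow]; congr 1; ring
  have hs1 : Real.sqrt n ≤ 2 * L := by
    rw [Real.sqrt_le_left (by positivity), pow_two]; exact hnL
  have hs2 : (L : ℝ) ≤ Real.sqrt n := by
    rw [Real.le_sqrt (by positivity) hn0.le, pow_two]; exact hLn
  refine ⟨hL1, hw1, ?_, ?_⟩
  · have h4 : 16 ≤ δ * z := by
      rw [div_le_iff₀ hδ] at h3; linarith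
    have h5 : 16 * x ≤ δ * (2 * L) := by
      calc 16 * x ≤ (δ * z) * x := mul_le_mul_of_nonneg_right h4 (by positivity)
        _ = δ * (x * z) := by ring
        _ ≤ δ * (2 * L) := by rw [hxz]; exact mul_le_mul_of_nonneg_left hs1 hδ.le
    linarith
  · calc (L : ℝ) ≤ x * z := by rw [hxz]; exact hs2
      _ ≤ (4 * wd n S.a) * z := mul_le_mul_of_nonneg_right (by linarith) hz0.le

theorem CH_main (hSL : SLGoal2) (hSU : SUGoal2) (S : Setup) (hT : Tight S)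
    (K : ∀ k, HW (S.V k)) (hK : IsKer S K) (A ε η : ℝ) (hA : 1 ≤ A) (hε : 0 < ε) (hη : 0 < η) : ∃ δ : ℝ, 0 < δ ∧ ∀ᶠ k in atTop,
    EF (S.G k) {S.o k} (fun f => ind (∃ r r' : ℕ,
      (r : ℝ) ≤ A * Nat.sqrt (Fintype.card (S.V k)) ∧
      (r' : ℝ) ≤ A * Nat.sqrt (Fintype.card (S.V k)) ∧
      |(r : ℝ) - r'| ≤ δ * Nat.sqrt (Fintype.card (S.V k)) ∧
      ε * Nat.sqrt (Fintype.card (S.V k)) < |bs (S.o k) f r 1 - bs (S.o k) f r' 1|)) ≤ η := by
  classical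
  set A₁ : ℝ := A + 1 with hA₁
  have hA₁1 : 1 ≤ A₁ := by linarith
  obtain ⟨c, C, hc, hC, hrest⟩ := hSL S K hK hT (A₁ + 2) (by linarith)
  obtain ⟨J₀, hJ₀, hevSL⟩ := hrest (η / 4) (by positivity)
  obtain ⟨B, hB, hscale⟩ := CH_scale c C hc hC
  have hC0 : 0 < C := by linarith
  set κ : ℝ := c / C with hκ
  have hκ0 : 0 < κ := by positivity
  set G₀ : ℝ := (1 - (2 : ℝ) ^ (-κ))⁻¹ with hG₀
  have hρ1 : (2 : ℝ) ^ (-κ) < 1 := Real.rpow_lt_one_of_one_lt_of_neg (by norm_num) (by linarith)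
  have hG₀0 : 0 < G₀ := by rw [hG₀]; exact inv_pos.2 (by linarith)
  -- the threshold
  obtain ⟨X, hX1, hX2, hX3⟩ : ∃ X : ℝ, 1 ≤ X ∧
      (2 * A₁ + 2) * B * (G₀ + 1) * X ^ (-κ) ≤ min ε η / 4 ∧ J₀ + 1 ≤ X ^ (1 / C) := by
    have t1 : Tendsto (fun X : ℝ => (2 * A₁ + 2) * B * (G₀ + 1) * X ^ (-κ)) atTop (𝓝 0) := by
      have := (tendsto_rpow_neg_atTop hκ0).const_mul ((2 * A₁ + 2) * B * (G₀ + 1))
      simpa using this
    have t2 : Tendsto (fun X : ℝ => X ^ (1 / C)) atTop atTop := tendsto_rpow_atTop (by positivity)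
    have hm : 0 < min ε η / 4 := by
      have := lt_min hε hη
      positivity
    obtain ⟨X, h1, h2, h3⟩ := ((t1.eventually (Iic_mem_nhds hm)).and
      ((t2.eventually_ge_atTop (J₀ + 1)).and (eventually_ge_atTop 1))).exists
    exact ⟨X, h3, h1, h2⟩
  have hX0 : 0 < X := by linarith
  set δ₀ : ℝ := 1 / (2 * X) with hδ₀
  have hδ₀0 : 0 < δ₀ := by positivity
  have hδ₀1 : δ₀ ≤ 1 / 2 := by
    rw [hδ₀]; apply one_div_le_one_div_of_le <;> linarith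
  set Q : ℝ := 8 / δ₀ + ε with hQ
  have hevSU := hSU S K hK hT A₁ Q (ε / 8) (η / 2) hA₁1 (by positivity) (by positivity)
  refine ⟨δ₀ / 2, by positivity, ?_⟩
  filter_upwards [hevSL, hevSU, CH_sizes S δ₀ hδ₀0] with k hSLk hSUk hsz
  obtain ⟨hL1, hw1, hwδ, hLw⟩ := hsz
  obtain ⟨T, hpT, hSLk⟩ := hSLk
  set n := Fintype.card (S.V k) with hn
  set L := Nat.sqrt n with hL
  set w₀ := wd n S.a with hw₀
  set o := S.o k with ho
  have hL1R : (1 : ℝ) ≤ L := by exact_mod_cast hL1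
  have hL0 : (0 : ℝ) < L := by linarith
  have hw1R : (1 : ℝ) ≤ w₀ := by exact_mod_cast hw1
  -- the bottom scale
  obtain ⟨M, hM1, hM2⟩ : ∃ M : ℕ, w₀ ≤ 2 ^ M ∧ 2 ^ M ≤ 2 * w₀ := by
    refine ⟨Nat.log 2 w₀ + 1, ?_, ?_⟩
    · exact (Nat.lt_pow_succ_log_self (by norm_num) w₀).le
    · rw [pow_succ, mul_comm]
      exact Nat.mul_le_mul_left 2 (Nat.pow_log_le_self 2 (by omega))
  -- the top scale
  have hfl : 8 * w₀ ≤ ⌊δ₀ * L⌋₊ := Nat.le_floor (by push_cast; exact hwδ)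
  obtain ⟨m₀, hm1, hm2⟩ : ∃ m₀ : ℕ, 2 ^ m₀ ≤ ⌊δ₀ * L⌋₊ ∧ ⌊δ₀ * L⌋₊ < 2 ^ (m₀ + 1) :=
    ⟨Nat.log 2 ⌊δ₀ * L⌋₊, Nat.pow_log_le_self 2 (by omega),
      Nat.lt_pow_succ_log_self (by norm_num) _⟩
  have hm1R : (2 : ℝ) ^ m₀ ≤ δ₀ * L := by
    have h1 : ((2 ^ m₀ : ℕ) : ℝ) ≤ (⌊δ₀ * L⌋₊ : ℝ) := by exact_mod_cast hm1
    have h2 : (⌊δ₀ * L⌋₊ : ℝ) ≤ δ₀ * L := Nat.floor_le (by positivity)
    push_cast at h1
    linarith
  have hm2R : δ₀ * L ≤ 2 * 2 ^ m₀ := by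
    have h1 : δ₀ * L < ⌊δ₀ * L⌋₊ + 1 := Nat.lt_floor_add_one _
    have h2 : ((⌊δ₀ * L⌋₊ + 1 : ℕ) : ℝ) ≤ ((2 ^ (m₀ + 1) : ℕ) : ℝ) := by exact_mod_cast hm2
    push_cast at h2
    rw [pow_succ] at h2
    linarith
  have hMm : M < m₀ := by
    have h1 : 2 ^ (M + 1) < 2 ^ (m₀ + 1) := by
      calc 2 ^ (M + 1) = 2 * 2 ^ M := by rw [pow_succ]; ring
        _ ≤ 4 * w₀ := by omega
        _ ≤ 8 * w₀ := by omega
        _ ≤ ⌊δ₀ * L⌋₊ := hfl
        _ < 2 ^ (m₀ + 1) := hm2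
    have := (Nat.pow_lt_pow_iff_right (by norm_num : 1 < 2)).1 h1
    omega
  have hm0L : (2 : ℝ) ^ m₀ ≤ L := by
    have h1 : δ₀ * L ≤ 1 / 2 * L := mul_le_mul_of_nonneg_right hδ₀1 hL0.le
    linarith
  -- the scale parameters
  set x : ℕ → ℝ := fun m => L / 2 ^ (m + 1) with hx
  have hxX : ∀ m, m ≤ m₀ → X ≤ x m := by
    intro m hm
    show X ≤ L / 2 ^ (m + 1)
    rw [le_div_iff₀ (by positivity)]
    have h1 : (2 : ℝ) ^ (m + 1) ≤ 2 ^ (m₀ + 1) := pow_le_pow_right₀ (by norm_num) (by omega)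
    have h2 : (2 : ℝ) ^ (m₀ + 1) ≤ 2 * (δ₀ * L) := by rw [pow_succ]; linarith
    calc X * 2 ^ (m + 1) ≤ X * (2 * (δ₀ * L)) := mul_le_mul_of_nonneg_left (by linarith) hX0.le
      _ = L := by rw [hδ₀]; field_simp
  have hx1 : ∀ m, m ≤ m₀ → 1 ≤ x m := fun m hm => le_trans hX1 (hxX m hm)
  set Jm : ℕ → ℕ := fun m => ⌊(x m) ^ (1 / C)⌋₊ with hJm
  have hJ : ∀ m, m ≤ m₀ → J₀ ≤ (Jm m : ℝ) := by
    intro m hm
    have h1 : J₀ + 1 ≤ (x m) ^ (1 / C) :=
      le_trans hX3 (Real.rpow_le_rpow hX0.le (hxX m hm) (by positivity))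
    have h2 : (x m) ^ (1 / C) < (Jm m : ℝ) + 1 := Nat.lt_floor_add_one _
    linarith
  have hJC : ∀ m, M < m → m ≤ m₀ → (Jm m : ℝ) ^ C ≤ (n : ℝ) ^ (S.a / 8) := by
    intro m h1 h2
    refine le_trans (hscale (x m) (hx1 m h2)).2.1 ?_
    show (L : ℝ) / 2 ^ (m + 1) ≤ _
    rw [div_le_iff₀ (by positivity)]
    have h3 : (4 : ℝ) * w₀ ≤ 2 ^ (m + 1) := by
      have h4 : 4 * w₀ ≤ 2 ^ (m + 1) := by
        calc 4 * w₀ ≤ 4 * 2 ^ M := by omega
          _ = 2 ^ (M + 2) := by rw [pow_add]; ring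
          _ ≤ 2 ^ (m + 1) := Nat.pow_le_pow_right (by norm_num) (by omega)
      exact_mod_cast h4
    calc (L : ℝ) ≤ 4 * w₀ * (n : ℝ) ^ (S.a / 8) := hLw
      _ ≤ 2 ^ (m + 1) * (n : ℝ) ^ (S.a / 8) := mul_le_mul_of_nonneg_right h3 (by positivity)
      _ = _ := by ring
  have hxk : ∀ m, m ≤ m₀ → (x m) ^ (-κ) ≤ X ^ (-κ) := by
    intro m hm
    exact Real.rpow_le_rpow_of_nonpos hX0 (hxX m hm) (by linarith)
  -- levels
  have hA1L : A₁ * L = A * L + L := by rw [hA₁]; ring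
  have hA3L : (A₁ + 2) * L = A * L + 3 * L := by rw [hA₁]; ring
  have hεL : 0 < ε * L := mul_pos hε hL0
  set N : ℕ := ⌊A₁ * L⌋₊ with hN
  have hNL : (N : ℝ) ≤ A₁ * L := Nat.floor_le (by positivity)
  -- pairs
  set P : ℕ → Finset (ℕ × ℕ) := fun m => (Finset.range (N / 2 ^ m + 1)).image
    (fun i => (i * 2 ^ m, i * 2 ^ m + 2 ^ (m - 1))) with hP
  set P' : Finset (ℕ × ℕ) := (Finset.range (N / 2 ^ m₀ + 1)).image
    (fun i => (i * 2 ^ m₀, (i + 1) * 2 ^ m₀)) with hP'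
  have hiN : ∀ m i, i ∈ Finset.range (N / 2 ^ m + 1) → ((i * 2 ^ m : ℕ) : ℝ) ≤ A₁ * L := by
    intro m i hi
    rw [Finset.mem_range] at hi
    have h1 : i * 2 ^ m ≤ N := le_trans (Nat.mul_le_mul_right _ (by omega)) (Nat.div_mul_le_self N _)
    have h2 : ((i * 2 ^ m : ℕ) : ℝ) ≤ N := by exact_mod_cast h1
    linarith
  have hcardb : ∀ m, m ≤ m₀ → ((N / 2 ^ m + 1 : ℕ) : ℝ) ≤ (2 * A₁ + 1) * x m := by
    intro m hm
    have h1 : ((N / 2 ^ m : ℕ) : ℝ) ≤ (N : ℝ) / 2 ^ m := by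
      have := @Nat.cast_div_le ℝ _ _ _ N (2 ^ m)
      push_cast at this
      exact this
    have h2 : (N : ℝ) / 2 ^ m ≤ 2 * A₁ * x m := by
      show (N : ℝ) / 2 ^ m ≤ 2 * A₁ * (L / 2 ^ (m + 1))
      rw [pow_succ, div_le_iff₀ (by positivity)]
      calc (N : ℝ) ≤ A₁ * L := hNL
        _ = 2 * A₁ * (L / (2 ^ m * 2)) * 2 ^ m := by field_simp
    have h3 := hx1 m hm
    push_cast
    linarith
  have hPcard : ∀ m, m ≤ m₀ → ((P m).card : ℝ) ≤ (2 * A₁ + 1) * x m := by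
    intro m hm
    refine le_trans ?_ (hcardb m hm)
    have : (P m).card ≤ N / 2 ^ m + 1 := by
      refine le_trans Finset.card_image_le ?_
      rw [Finset.card_range]
    exact_mod_cast this
  have hPcard' : ((P').card : ℝ) ≤ (2 * A₁ + 1) * x m₀ := by
    refine le_trans ?_ (hcardb m₀ le_rfl)
    have : (P').card ≤ N / 2 ^ m₀ + 1 := by
      refine le_trans Finset.card_image_le ?_
      rw [Finset.card_range]
    exact_mod_cast this
  -- events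
  set E : ℕ → (S.V k → S.V k) → Prop := fun m f => T f ∧ ∃ p ∈ P m,
    (Jm m : ℝ) ^ (-c) * (((2 ^ (m - 1) : ℕ) : ℝ) * L) <
      |bs o f p.1 (2 ^ (m - 1)) - bs o f p.2 (2 ^ (m - 1))| with hE
  set E' : (S.V k → S.V k) → Prop := fun f => T f ∧ ∃ p ∈ P',
    (Jm m₀ : ℝ) ^ (-c) * (((2 ^ m₀ : ℕ) : ℝ) * L) <
      |bs o f p.1 (2 ^ m₀) - bs o f p.2 (2 ^ m₀)| with hE'
  set Es : (S.V k → S.V k) → Prop := fun f =>
      (∀ i : ℕ, (i : ℝ) * ((2 ^ M : ℕ) : ℝ) ≤ A₁ * L →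
        bs o f (i * 2 ^ M) (2 ^ M) ≤ Q * (((2 ^ M : ℕ) : ℝ) * L)) ∧
      (∃ r r' : ℕ, (r : ℝ) ≤ A₁ * L ∧ (r' : ℝ) ≤ A₁ * L ∧ |(r : ℝ) - r'| ≤ ((2 ^ M : ℕ) : ℝ) ∧
        ε / 8 * L < |bs o f r 1 - bs o f r' 1|) with hEs
  have hpE : ∀ m ∈ Finset.Ioc M m₀, EF (S.G k) {o} (fun f => ind (E m f)) ≤
      (2 * A₁ + 2) * B * (x m) ^ (-κ) := by
    intro m hm
    rw [Finset.mem_Ioc] at hm
    obtain ⟨hs1, hs2, hs3, hs4⟩ := hscale (x m) (hx1 m hm.2)
    have hwle : w₀ ≤ 2 ^ (m - 1) := le_trans hM1 (Nat.pow_le_pow_right (by norm_num) (by omega))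
    have h1 := hSLk (Jm m) (hJ m hm.2) (hJC m hm.1 hm.2) (2 ^ (m - 1)) hwle (P m) (by
      intro p hp
      rw [hP, Finset.mem_image] at hp
      obtain ⟨i, hi, rfl⟩ := hp
      have h2 := hiN m i hi
      have h3 : (2 : ℝ) ^ m = 2 * 2 ^ (m - 1) := by
        rw [← pow_succ']; congr 1; omega
      have h4 : (2 : ℝ) ^ m ≤ L :=
        le_trans (pow_le_pow_right₀ (by norm_num) hm.2) hm0L
      push_cast at h2 ⊢
      refine ⟨by linarith, by linarith, ?_⟩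
      have h5 : |(i : ℝ) * 2 ^ m - (i * 2 ^ m + 2 ^ (m - 1))| = 2 ^ (m - 1) := by
        rw [show (i : ℝ) * 2 ^ m - (i * 2 ^ m + 2 ^ (m - 1)) = -2 ^ (m - 1) by ring, abs_neg,
          abs_of_pos (by positivity)]
      rw [h5]
      calc (2 : ℝ) ^ (m - 1) * (Jm m : ℝ) ^ C ≤ 2 ^ (m - 1) * (L / 2 ^ (m + 1)) :=
            mul_le_mul_of_nonneg_left hs2 (by positivity)
        _ = L * (2 ^ (m - 1) / 2 ^ (m + 1)) := by ring
        _ ≤ L * 1 := by
            refine mul_le_mul_of_nonneg_left ?_ hL0.le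
            rw [div_le_one (by positivity)]
            exact pow_le_pow_right₀ (by norm_num) (by omega)
        _ = L := mul_one _)
    refine le_trans h1 ?_
    have h6 : ((P m).card : ℝ) * Real.exp (-(Jm m : ℝ) ^ c) ≤ (2 * A₁ + 1) * (B * (x m) ^ (-κ)) := by
      calc ((P m).card : ℝ) * Real.exp (-(Jm m : ℝ) ^ c)
          ≤ ((2 * A₁ + 1) * x m) * Real.exp (-(Jm m : ℝ) ^ c) :=
            mul_le_mul_of_nonneg_right (hPcard m hm.2) (Real.exp_pos _).le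
        _ = (2 * A₁ + 1) * (x m * Real.exp (-(Jm m : ℝ) ^ c)) := by ring
        _ ≤ _ := mul_le_mul_of_nonneg_left hs4 (by linarith)
    calc (Jm m : ℝ) ^ (-c) + ((P m).card : ℝ) * Real.exp (-(Jm m : ℝ) ^ c)
        ≤ B * (x m) ^ (-κ) + (2 * A₁ + 1) * (B * (x m) ^ (-κ)) := add_le_add hs3 h6
      _ = _ := by ring
  have hpE' : EF (S.G k) {o} (fun f => ind (E' f)) ≤ (2 * A₁ + 2) * B * (x m₀) ^ (-κ) := by
    obtain ⟨hs1, hs2, hs3, hs4⟩ := hscale (x m₀) (hx1 m₀ le_rfl)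
    have hwle : w₀ ≤ 2 ^ m₀ := le_trans hM1 (Nat.pow_le_pow_right (by norm_num) (by omega))
    have h1 := hSLk (Jm m₀) (hJ m₀ le_rfl) (hJC m₀ hMm le_rfl) (2 ^ m₀) hwle P' (by
      intro p hp
      rw [hP', Finset.mem_image] at hp
      obtain ⟨i, hi, rfl⟩ := hp
      have h2 := hiN m₀ i hi
      push_cast at h2 ⊢
      refine ⟨by linarith, by linarith, ?_⟩
      have h5 : |(i : ℝ) * 2 ^ m₀ - ((i + 1) * 2 ^ m₀)| = 2 ^ m₀ := by
        rw [show (i : ℝ) * 2 ^ m₀ - ((i + 1) * 2 ^ m₀) = -2 ^ m₀ by ring, abs_neg,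
          abs_of_pos (by positivity)]
      rw [h5]
      calc (2 : ℝ) ^ m₀ * (Jm m₀ : ℝ) ^ C ≤ 2 ^ m₀ * (L / 2 ^ (m₀ + 1)) :=
            mul_le_mul_of_nonneg_left hs2 (by positivity)
        _ = L / 2 := by rw [pow_succ]; field_simp
        _ ≤ L := by linarith)
    refine le_trans h1 ?_
    have h6 : ((P').card : ℝ) * Real.exp (-(Jm m₀ : ℝ) ^ c) ≤
        (2 * A₁ + 1) * (B * (x m₀) ^ (-κ)) := by
      calc ((P').card : ℝ) * Real.exp (-(Jm m₀ : ℝ) ^ c)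
          ≤ ((2 * A₁ + 1) * x m₀) * Real.exp (-(Jm m₀ : ℝ) ^ c) :=
            mul_le_mul_of_nonneg_right hPcard' (Real.exp_pos _).le
        _ = (2 * A₁ + 1) * (x m₀ * Real.exp (-(Jm m₀ : ℝ) ^ c)) := by ring
        _ ≤ _ := mul_le_mul_of_nonneg_left hs4 (by linarith)
    calc (Jm m₀ : ℝ) ^ (-c) + ((P').card : ℝ) * Real.exp (-(Jm m₀ : ℝ) ^ c)
        ≤ B * (x m₀) ^ (-κ) + (2 * A₁ + 1) * (B * (x m₀) ^ (-κ)) := add_le_add hs3 h6
      _ = _ := by ring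
  have hpEs : EF (S.G k) {o} (fun f => ind (Es f)) ≤ η / 2 := hSUk (2 ^ M) hM1 hM2
  -- errors
  have hxm0 : (x m₀) ^ (-κ) ≤ X ^ (-κ) := hxk m₀ le_rfl
  have hXk0 : 0 < X ^ (-κ) := Real.rpow_pos_of_pos hX0 _
  have hbase : B * (G₀ + 1) * X ^ (-κ) ≤ ε / 16 := by
    have h1 : (2 * A₁ + 2) * B * (G₀ + 1) * X ^ (-κ) ≤ ε / 4 :=
      le_trans hX2 (by linarith [min_le_left ε η])
    have h2 : 4 * (B * (G₀ + 1) * X ^ (-κ)) ≤ (2 * A₁ + 2) * (B * (G₀ + 1) * X ^ (-κ)) :=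
      mul_le_mul_of_nonneg_right (by linarith) (by positivity)
    linarith
  have hsumx : ∑ m ∈ Finset.Ioc M m₀, (x m) ^ (-κ) ≤ G₀ * X ^ (-κ) := by
    refine le_trans (CH_geom κ L hκ0 hL0 M m₀) ?_
    exact mul_le_mul_of_nonneg_left hxm0 hG₀0.le
  have herr : ∑ m ∈ Finset.Ioc M m₀, (Jm m : ℝ) ^ (-c) / 2 * L ≤ ε / 4 * L := by
    have h1 : ∀ m ∈ Finset.Ioc M m₀, (Jm m : ℝ) ^ (-c) / 2 * L ≤ (B * (x m) ^ (-κ)) * L := by
      intro m hm
      rw [Finset.mem_Ioc] at hm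
      have h2 := (hscale (x m) (hx1 m hm.2)).2.2.1
      have h3 : 0 ≤ (Jm m : ℝ) ^ (-c) := by positivity
      refine mul_le_mul_of_nonneg_right ?_ hL0.le
      have h4 : (Jm m : ℝ) ^ (-c) ≤ B * x m ^ (-κ) := h2
      linarith
    refine le_trans (Finset.sum_le_sum h1) ?_
    rw [← Finset.sum_mul, ← Finset.mul_sum]
    refine mul_le_mul_of_nonneg_right ?_ hL0.le
    calc B * ∑ m ∈ Finset.Ioc M m₀, (x m) ^ (-κ) ≤ B * (G₀ * X ^ (-κ)) :=
          mul_le_mul_of_nonneg_left hsumx hB.le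
      _ ≤ B * (G₀ + 1) * X ^ (-κ) := by
          have h2 := mul_pos hB hXk0
          have h3 : B * (G₀ + 1) * X ^ (-κ) = B * (G₀ * X ^ (-κ)) + B * X ^ (-κ) := by ring
          linarith
      _ ≤ ε / 16 := hbase
      _ ≤ ε / 4 := by linarith
  have herr' : (Jm m₀ : ℝ) ^ (-c) ≤ ε / 16 := by
    calc (Jm m₀ : ℝ) ^ (-c) ≤ B * (x m₀) ^ (-κ) := (hscale (x m₀) (hx1 m₀ le_rfl)).2.2.1
      _ ≤ B * X ^ (-κ) := mul_le_mul_of_nonneg_left hxm0 hB.le
      _ ≤ B * (G₀ + 1) * X ^ (-κ) := by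
          have h2 := mul_pos (mul_pos hB hG₀0) hXk0
          have h3 : B * (G₀ + 1) * X ^ (-κ) = B * G₀ * X ^ (-κ) + B * X ^ (-κ) := by ring
          linarith
      _ ≤ ε / 16 := hbase
  -- the inclusion of events
  have key : ∀ f : S.V k → S.V k, T f → (∀ m ∈ Finset.Ioc M m₀, ¬ E m f) → ¬ E' f → ¬ Es f →
      ¬ ∃ r r' : ℕ, (r : ℝ) ≤ A * L ∧ (r' : ℝ) ≤ A * L ∧ |(r : ℝ) - r'| ≤ δ₀ / 2 * L ∧
        ε * L < |bs o f r 1 - bs o f r' 1| := by
    intro f hTf h1 h2 h3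
    have hch := CH_chain (bs o f) (CH_bs_add o f) L (fun m => (Jm m : ℝ) ^ (-c)) N M m₀ hMm.le (by
      intro m hMm' hm i hi
      by_contra hcon
      push Not at hcon
      apply h1 m (Finset.mem_Ioc.2 ⟨hMm', hm⟩)
      refine ⟨hTf, (i * 2 ^ m, i * 2 ^ m + 2 ^ (m - 1)), ?_, ?_⟩
      · rw [hP, Finset.mem_image]
        refine ⟨i, ?_, rfl⟩
        rw [Finset.mem_range, Nat.lt_succ_iff, Nat.le_div_iff_mul_le (by positivity)]
        exact hi
      · push_cast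
        exact hcon)
    have hch2 : ∀ r, r ≤ N → |CH_av (bs o f) M (r / 2 ^ M) - CH_av (bs o f) m₀ (r / 2 ^ m₀)| ≤
        ε / 4 * L := fun r hr => le_trans (hch r hr) herr
    have htop : ∀ i, CH_av (bs o f) m₀ i ≤ 8 / δ₀ * L := by
      intro i
      unfold CH_av
      rw [div_le_iff₀ (by positivity)]
      have h4 := CH_bs_le o f (i * 2 ^ m₀) (2 ^ m₀)
      have h5 : (n : ℝ) ≤ (2 * L) * (2 * L) := by
        have h6 := Nat.lt_succ_sqrt n
        have h7 : (n : ℝ) < (L + 1) * (L + 1) := by exact_mod_cast h6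
        linarith [mul_self_nonneg ((L : ℝ) - 1), mul_le_mul_of_nonneg_left hL1R hL0.le]
      calc bs o f (i * 2 ^ m₀) (2 ^ m₀) ≤ n := h4
        _ ≤ (2 * L) * (2 * L) := h5
        _ = 8 / δ₀ * L * ((δ₀ * L) / 2) := by field_simp; ring
        _ ≤ 8 / δ₀ * L * 2 ^ m₀ := mul_le_mul_of_nonneg_left (by linarith) (by positivity)
    have hblocks : ∀ i : ℕ, (i : ℝ) * ((2 ^ M : ℕ) : ℝ) ≤ A₁ * L →
        bs o f (i * 2 ^ M) (2 ^ M) ≤ Q * (((2 ^ M : ℕ) : ℝ) * L) := by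
      intro i hi
      have h4 : i * 2 ^ M ≤ N := Nat.le_floor (by push_cast at hi ⊢; exact hi)
      have h5 := hch2 (i * 2 ^ M) h4
      rw [Nat.mul_div_cancel _ (by positivity)] at h5
      have h6 := (abs_le.1 h5).2
      have h7 := htop (i * 2 ^ M / 2 ^ m₀)
      have h8 : CH_av (bs o f) M i ≤ Q * L := by
        rw [hQ]; linarith
      unfold CH_av at h8
      rw [div_le_iff₀ (by positivity)] at h8
      push_cast
      linarith
    have hflat : ∀ r r' : ℕ, (r : ℝ) ≤ A₁ * L → (r' : ℝ) ≤ A₁ * L →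
        |(r : ℝ) - r'| ≤ ((2 ^ M : ℕ) : ℝ) → |bs o f r 1 - bs o f r' 1| ≤ ε / 8 * L := by
      intro r r' h4 h5 h6
      by_contra hcon
      push Not at hcon
      exact h3 ⟨hblocks, r, r', h4, h5, h6, hcon⟩
    have hunit : ∀ r : ℕ, (r : ℝ) ≤ A * L →
        |bs o f r 1 - CH_av (bs o f) M (r / 2 ^ M)| ≤ ε / 8 * L := by
      intro r hr
      set i := r / 2 ^ M with hi
      have hmod : r = i * 2 ^ M + r % 2 ^ M := by
        rw [hi, mul_comm]; exact (Nat.div_add_mod r _).symm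
      have hlt : r % 2 ^ M < 2 ^ M := Nat.mod_lt _ (by positivity)
      have hML : (2 : ℝ) ^ M ≤ L := le_trans (pow_le_pow_right₀ (by norm_num) hMm.le) hm0L
      have h4 : bs o f r 1 - CH_av (bs o f) M i =
          (∑ j ∈ Finset.range (2 ^ M), (bs o f r 1 - bs o f (i * 2 ^ M + j) 1)) / 2 ^ M := by
        unfold CH_av
        rw [CH_bs_sum o f (i * 2 ^ M) (2 ^ M), Finset.sum_sub_distrib, Finset.sum_const,
          Finset.card_range, nsmul_eq_mul]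
        push_cast
        field_simp
      rw [h4, abs_div, abs_of_pos (show (0 : ℝ) < 2 ^ M by positivity), div_le_iff₀ (by positivity)]
      refine le_trans (Finset.abs_sum_le_sum_abs _ _) ?_
      have h5 : ∀ j ∈ Finset.range (2 ^ M), |bs o f r 1 - bs o f (i * 2 ^ M + j) 1| ≤
          ε / 8 * L := by
        intro j hj
        rw [Finset.mem_range] at hj
        have hir : ((i * 2 ^ M : ℕ) : ℝ) ≤ r := by
          have : i * 2 ^ M ≤ r := by omega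
          exact_mod_cast this
        have hj' : (j : ℝ) ≤ 2 ^ M := by
          have : j ≤ 2 ^ M := hj.le
          exact_mod_cast this
        apply hflat
        · linarith
        · push_cast at hir ⊢
          linarith
        · have h6 : (r : ℝ) = (i : ℝ) * 2 ^ M + ((r % 2 ^ M : ℕ) : ℝ) := by
            exact_mod_cast hmod
          have h7 : ((r % 2 ^ M : ℕ) : ℝ) ≤ 2 ^ M := by
            have : r % 2 ^ M ≤ 2 ^ M := hlt.le
            exact_mod_cast this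
          have h8 : (0 : ℝ) ≤ ((r % 2 ^ M : ℕ) : ℝ) := by positivity
          have h9 : (0 : ℝ) ≤ (j : ℝ) := by positivity
          push_cast
          rw [h6, abs_le]
          constructor <;> linarith
      refine le_trans (Finset.sum_le_sum h5) ?_
      rw [Finset.sum_const, Finset.card_range, nsmul_eq_mul]
      push_cast
      linarith
    have hadj : ∀ i, i * 2 ^ m₀ ≤ N →
        |CH_av (bs o f) m₀ i - CH_av (bs o f) m₀ (i + 1)| ≤ ε / 16 * L := by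
      intro i hi
      have h4 : |bs o f (i * 2 ^ m₀) (2 ^ m₀) - bs o f ((i + 1) * 2 ^ m₀) (2 ^ m₀)| ≤
          (Jm m₀ : ℝ) ^ (-c) * (((2 ^ m₀ : ℕ) : ℝ) * L) := by
        by_contra hcon
        push Not at hcon
        apply h2
        refine ⟨hTf, (i * 2 ^ m₀, (i + 1) * 2 ^ m₀), ?_, hcon⟩
        rw [hP', Finset.mem_image]
        refine ⟨i, ?_, rfl⟩
        rw [Finset.mem_range, Nat.lt_succ_iff, Nat.le_div_iff_mul_le (by positivity)]
        exact hi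
      unfold CH_av
      rw [← sub_div, abs_div, abs_of_pos (show (0 : ℝ) < 2 ^ m₀ by positivity),
        div_le_iff₀ (by positivity)]
      push_cast at h4
      calc |bs o f (i * 2 ^ m₀) (2 ^ m₀) - bs o f ((i + 1) * 2 ^ m₀) (2 ^ m₀)|
          ≤ (Jm m₀ : ℝ) ^ (-c) * (2 ^ m₀ * L) := h4
        _ ≤ ε / 16 * (2 ^ m₀ * L) := mul_le_mul_of_nonneg_right herr' (by positivity)
        _ = ε / 16 * L * 2 ^ m₀ := by ring
    rintro ⟨r, r', hr, hr', hrr, hbig⟩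
    have hrN : ∀ r : ℕ, (r : ℝ) ≤ A * L → r ≤ N := by
      intro r hr
      refine Nat.le_floor ?_
      linarith
    have hstep : ∀ r r' : ℕ, (r : ℝ) ≤ A * L → (r' : ℝ) ≤ A * L → r ≤ r' → r' - r ≤ 2 ^ m₀ →
        |bs o f r 1 - bs o f r' 1| ≤ ε * L := by
      intro r r' hr hr' hle hd
      have a1 := hunit r hr
      have a2 := hunit r' hr'
      have a3 := hch2 r (hrN r hr)
      have a4 := hch2 r' (hrN r' hr')
      have a5 : |CH_av (bs o f) m₀ (r / 2 ^ m₀) - CH_av (bs o f) m₀ (r' / 2 ^ m₀)| ≤ ε / 16 * L := by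
        have b1 : r / 2 ^ m₀ ≤ r' / 2 ^ m₀ := Nat.div_le_div_right hle
        have b2 : r' / 2 ^ m₀ ≤ r / 2 ^ m₀ + 1 := by
          calc r' / 2 ^ m₀ ≤ (r + 2 ^ m₀) / 2 ^ m₀ := Nat.div_le_div_right (by omega)
            _ = r / 2 ^ m₀ + 1 := Nat.add_div_right r (by positivity)
        rcases Nat.eq_or_lt_of_le b1 with b3 | b3
        · rw [← b3, sub_self, abs_zero]; positivity
        · have b4 : r' / 2 ^ m₀ = r / 2 ^ m₀ + 1 := by omega
          rw [b4]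
          exact hadj _ (le_trans (Nat.div_mul_le_self r _) (hrN r hr))
      rw [abs_le] at a1 a2 a3 a4 a5 ⊢
      constructor <;> linarith [a1.1, a1.2, a2.1, a2.2, a3.1, a3.2, a4.1, a4.2, a5.1, a5.2]
    have hd : ∀ r r' : ℕ, r ≤ r' → |(r : ℝ) - r'| ≤ δ₀ / 2 * L → r' - r ≤ 2 ^ m₀ := by
      intro r r' hle h4
      have h5 : ((r' - r : ℕ) : ℝ) ≤ ((2 ^ m₀ : ℕ) : ℝ) := by
        rw [Nat.cast_sub hle]
        have := (abs_le.1 h4).1
        push_cast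
        linarith
      exact_mod_cast h5
    rcases le_total r r' with hle | hle
    · exact absurd hbig (not_lt.2 (hstep r r' hr hr' hle (hd r r' hle hrr)))
    · rw [abs_sub_comm] at hrr hbig
      exact absurd hbig (not_lt.2 (hstep r' r hr' hr hle (hd r' r hle hrr)))
  -- union bound
  calc EF (S.G k) {o} (fun f => ind (∃ r r' : ℕ, (r : ℝ) ≤ A * L ∧ (r' : ℝ) ≤ A * L ∧
          |(r : ℝ) - r'| ≤ δ₀ / 2 * L ∧ ε * L < |bs o f r 1 - bs o f r' 1|))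
      ≤ EF (S.G k) {o} (fun f => ((∑ m ∈ Finset.Ioc M m₀, ind (E m f)) + ind (E' f) +
          ind (Es f)) + ind (¬ T f)) := by
        refine CH_EF_mono _ _ _ _ fun f _ => ?_
        have hs : 0 ≤ ∑ m ∈ Finset.Ioc M m₀, ind (E m f) :=
          Finset.sum_nonneg fun _ _ => CH_ind_nonneg _
        have h5 := CH_ind_nonneg (Es f)
        have h6 := CH_ind_nonneg (E' f)
        have h7 := CH_ind_nonneg (¬ T f)
        by_cases hh : ∃ r r' : ℕ, (r : ℝ) ≤ A * L ∧ (r' : ℝ) ≤ A * L ∧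
          |(r : ℝ) - r'| ≤ δ₀ / 2 * L ∧ ε * L < |bs o f r 1 - bs o f r' 1|
        · rw [CH_ind_true hh]
          by_cases c0 : T f
          · by_cases c1 : ∀ m ∈ Finset.Ioc M m₀, ¬ E m f
            · by_cases c2 : E' f
              · rw [CH_ind_true c2]
                linarith
              · by_cases c3 : Es f
                · rw [CH_ind_true c3]
                  linarith
                · exact absurd hh (key f c0 c1 c2 c3)
            · push Not at c1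
              obtain ⟨m, hm, hmE⟩ := c1
              have h4 : ind (E m f) ≤ ∑ m ∈ Finset.Ioc M m₀, ind (E m f) :=
                Finset.single_le_sum (f := fun m => ind (E m f)) (fun _ _ => CH_ind_nonneg _) hm
              rw [CH_ind_true hmE] at h4
              linarith
          · rw [CH_ind_true c0]
            linarith
        · rw [CH_ind_false hh]
          linarith
    _ = (∑ m ∈ Finset.Ioc M m₀, EF (S.G k) {o} (fun f => ind (E m f))) +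
          EF (S.G k) {o} (fun f => ind (E' f)) + EF (S.G k) {o} (fun f => ind (Es f)) +
          EF (S.G k) {o} (fun f => ind (¬ T f)) := by
        rw [CH_EF_add, CH_EF_add, CH_EF_add, CH_EF_sum]
    _ ≤ (∑ m ∈ Finset.Ioc M m₀, (2 * A₁ + 2) * B * (x m) ^ (-κ)) +
          (2 * A₁ + 2) * B * (x m₀) ^ (-κ) + η / 2 + η / 4 :=
        add_le_add (add_le_add (add_le_add (Finset.sum_le_sum hpE) hpE') hpEs) hpT
    _ = (2 * A₁ + 2) * B * (∑ m ∈ Finset.Ioc M m₀, (x m) ^ (-κ)) +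
          (2 * A₁ + 2) * B * (x m₀) ^ (-κ) + η / 2 + η / 4 := by rw [Finset.mul_sum]
    _ ≤ (2 * A₁ + 2) * B * (G₀ * X ^ (-κ)) + (2 * A₁ + 2) * B * X ^ (-κ) + η / 2 + η / 4 := by
        have h4 : 0 ≤ (2 * A₁ + 2) * B := by positivity
        exact add_le_add (add_le_add (add_le_add (mul_le_mul_of_nonneg_left hsumx h4)
          (mul_le_mul_of_nonneg_left hxm0 h4)) le_rfl) le_rfl
    _ = (2 * A₁ + 2) * B * (G₀ + 1) * X ^ (-κ) + η / 2 + η / 4 := by ring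
    _ ≤ min ε η / 4 + η / 2 + η / 4 := add_le_add (add_le_add hX2 le_rfl) le_rfl
    _ ≤ η := by linarith [min_le_right ε η]

end Pool.Agent.helper90.FN
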