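import Pool.Agent.helper20.HP.Defs3
import Pool.Agent.helper72.UT.Total

/-!
Definitions for the functional form of MP_5ae64c_pr (uniform convergence on compact sets): averages over
forests, gluing, levels, hanging trees. Forests are the parent functions of helper72 (`fors G B`).
-/

set_option autoImplicit false

open scoped BigOperators Topology
open Filter MeasureTheory

namespace Pool.Agent.helper90.FN

open Finset
open Pool.Agent.helper72.UT (IsFor dep pth rt fors Reg lz)
open Pool.Agent.helper20.HP (ind HW W Par cc run lel lst lazyP tmix ustE height vol Setup CZ CP IsKer)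

variable {V : Type} [Fintype V] [DecidableEq V]

/-- average of `F` over the spanning forests of `G` rooted at `B` -/
noncomputable def EF (G : SimpleGraph V) (B : Finset V) (F : (V → V) → ℝ) : ℝ :=
  (∑ f ∈ fors G B, F f) / ((fors G B).card : ℝ)

/-- parent function `q` on `D` and `g` elsewhere -/
def glue (D : Finset V) (q g : V → V) : V → V := fun x => if x ∈ D then q x else g x

/-- level of `v` when the root `y` has level `ℓ y` -/
noncomputable def lv (B : Finset V) (ℓ : V → ℕ) (f : V → V) (v : V) : ℕ := ℓ (rt B f v) + dep B f v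

/-- `D` contains `C` and is closed under `f` -/
structure Cl (C D : Finset V) (f : V → V) : Prop where
  sub : C ⊆ D
  map : ∀ x ∈ D, f x ∈ D

/-- the roots and the path of `v` -/
noncomputable def dn (B : Finset V) (f : V → V) (v : V) : Finset V := B ∪ (pth B f v).toFinset

/-- the skeleton spanned by the roots and the vertices of the list `l` -/
noncomputable def sk (B : Finset V) (f : V → V) (l : List V) : Finset V :=
  B ∪ l.toFinset.biUnion (fun v => (pth B f v).toFinset)

/-- number of non root vertices with root in `W` and level in `[r, r + w)` -/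
noncomputable def nb (B W : Finset V) (ℓ : V → ℕ) (r w : ℕ) (f : V → V) : ℝ :=
  ∑ v, ind (v ∉ B ∧ rt B f v ∈ W ∧ r ≤ lv B ℓ f v ∧ lv B ℓ f v < r + w)

/-- number of descendants of `x` (`x` included) with level in `[r, r + w)` -/
noncomputable def hx (B : Finset V) (ℓ : V → ℕ) (r w : ℕ) (f : V → V) (x : V) : ℝ :=
  ∑ v, ind (x ∈ pth B f v ∧ r ≤ lv B ℓ f v ∧ lv B ℓ f v < r + w)

/-- sum over the trees hanging from `C ⊆ B` (their tops are the `x ∉ B` with `f x ∈ C`) of
`min (number of vertices in the window) b` -/
noncomputable def HB (B C : Finset V) (ℓ : V → ℕ) (r w : ℕ) (b : ℝ) (f : V → V) : ℝ :=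
  ∑ x, ind (x ∉ B ∧ f x ∈ C) * min (hx B ℓ r w f x) b

/-- excess above `b` of the hanging trees -/
noncomputable def exc (B : Finset V) (ℓ : V → ℕ) (r w : ℕ) (b : ℝ) (f : V → V) : ℝ :=
  ∑ x, ind (x ∉ B ∧ f x ∈ B) * max (hx B ℓ r w f x - b) 0

/-- exponentially weighted number of vertices hanging from `W` -/
noncomputable def ew (B W : Finset V) (ℓ : V → ℕ) (r w : ℕ) (μ : ℝ) (f : V → V) : ℝ :=
  ∑ v, ind (v ∉ B ∧ rt B f v ∈ W ∧ r ≤ lv B ℓ f v ∧ lv B ℓ f v < r + w) * Real.exp (μ * dep B f v)

/-- hypothesis for the exponential moments -/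
def Hyp (G : SimpleGraph V) (C₀ : Finset V) (μ a a₀ : ℝ) (r w : ℕ) : Prop :=
  ∀ D : Finset V, C₀ ⊆ D → ∀ W ⊆ D, ∀ ℓ : V → ℕ, EF G D (ew D W ℓ r w μ) ≤ a * W.card + a₀

/-- the walk of length `t` from `y` avoids `D` (after time `0`) and its loop erasure has `q` steps -/
noncomputable def cnt (K : HW V) (D : Finset V) (y : V) (q t : ℕ) : ℝ :=
  W K t y (fun l => ind (∀ z ∈ l, z ∉ D) * ind (lel y l = q))

/-- from every vertex the set `D` is hit before time `h` with probability at least `1/2` -/
def Hit (K : HW V) (D : Finset V) (h : ℕ) : Prop :=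
  ∀ x, W K h x (fun l => ind (∀ z ∈ l, z ∉ D)) ≤ 1 / 2

/-- constant of the weighted count -/
noncomputable def MC (θ : ℝ) : ℝ := 40 * θ * CZ θ

/-- number of vertices of the tree with level in `[r, r + w)` -/
noncomputable def bs (o : V) (f : V → V) (r w : ℕ) : ℝ :=
  ∑ v, ind (r ≤ dep {o} f v ∧ dep {o} f v < r + w)

/-- conditional expectation of `bs` given the part `D` of the tree `f` -/
noncomputable def PhiD (G : SimpleGraph V) (o : V) (f : V → V) (D : Finset V) (r w : ℕ) : ℝ :=
  EF G D (fun g => bs o (glue D f g) r w)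

/-- average over `J` independent uniform vertices -/
noncomputable def avJ (J : ℕ) (F : List V → ℝ) : ℝ :=
  (∑ a : Fin J → V, F (List.ofFn a)) / (Fintype.card V : ℝ) ^ J

end Pool.Agent.helper90.FN
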