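import Pool.Agent.helper90.FN.CHa
import Pool.Agent.helper90.FN.Goals2

/-! Numerical part of the scale lemma (module SL2). -/

set_option autoImplicit false

open scoped BigOperators Topology
open Filter MeasureTheory

namespace Pool.Agent.helper90.FN

/-- inequality in the variable `s` -/
theorem SL_s (Mc Ap : ℝ) (hMc : 1 ≤ Mc) (hAp : 1 ≤ Ap) : ∀ᶠ s : ℝ in atTop,
    4 * Real.exp (1 - s ^ 2 / 3) + 2 * Mc * (Real.exp s * Real.exp (s ^ 8 - s ^ 12))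
      + 2 * (Real.exp s * Real.exp (-(s ^ 12 / 2))) + 2 * Real.exp (3 - s ^ 4 / Ap)
      ≤ Real.exp (-s) := by
  have e4 : ∀ᶠ s : ℝ in atTop, 8 * Mc ≤ s := eventually_ge_atTop _
  have e5 : ∀ᶠ s : ℝ in atTop, Ap ≤ s := eventually_ge_atTop _
  filter_upwards [e4, e5, eventually_ge_atTop (12 : ℝ)] with s h4 h5 h12
  have hs0 : 0 < s := by linarith
  have key : ∀ (c y : ℝ), 0 < c → c ≤ s → y + s + s ≤ 0 → c * Real.exp y ≤ Real.exp (-s) / 4 ∨
      c * Real.exp y ≤ Real.exp (-s) / 4 := fun _ _ _ _ _ => Or.inl (by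
    rename_i c y hc hcs hy
    have h1 : Real.exp y ≤ Real.exp (-s) * Real.exp (-s) := by
      rw [← Real.exp_add]; exact Real.exp_le_exp.2 (by linarith)
    have h2 : 4 * s ≤ Real.exp s := by
      have := Real.quadratic_le_exp_of_nonneg hs0.le
      nlinarith
    have h3 : c * Real.exp (-s) ≤ 1 / 4 := by
      rw [Real.exp_neg, ← div_eq_mul_inv, div_le_iff₀ (Real.exp_pos s)]
      linarith
    calc c * Real.exp y ≤ c * (Real.exp (-s) * Real.exp (-s)) :=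
          mul_le_mul_of_nonneg_left h1 hc.le
      _ = (c * Real.exp (-s)) * Real.exp (-s) := by ring
      _ ≤ 1 / 4 * Real.exp (-s) := mul_le_mul_of_nonneg_right h3 (Real.exp_pos _).le
      _ = Real.exp (-s) / 4 := by ring)
  have k1 : ∀ (c y : ℝ), 0 < c → c ≤ s → y + s + s ≤ 0 → c * Real.exp y ≤ Real.exp (-s) / 4 :=
    fun c y h1 h2 h3 => (key c y h1 h2 h3).elim id id
  have hs4 : s ^ 3 * 12 ≤ s ^ 4 := by nlinarith [pow_pos hs0 3]
  have hs3 : s * 144 ≤ s ^ 3 := by nlinarith [mul_pos hs0 hs0, mul_le_mul_of_nonneg_left h12 hs0.le]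
  have hs8 : s ≤ s ^ 8 := by
    calc s = s ^ 1 := (pow_one s).symm
      _ ≤ s ^ 8 := pow_le_pow_right₀ (by linarith) (by norm_num)
  have hs12 : s ^ 8 * 144 ≤ s ^ 12 := by
    have : s ^ 12 = s ^ 8 * s ^ 4 := by ring
    rw [this]
    exact mul_le_mul_of_nonneg_left (by nlinarith) (by positivity)
  have t1 : 4 * Real.exp (1 - s ^ 2 / 3) ≤ Real.exp (-s) / 4 :=
    k1 4 _ (by norm_num) (by linarith) (by nlinarith)
  have t2 : 2 * Mc * (Real.exp s * Real.exp (s ^ 8 - s ^ 12)) ≤ Real.exp (-s) / 4 := by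
    rw [← Real.exp_add]
    exact k1 (2 * Mc) _ (by linarith) (by linarith) (by nlinarith)
  have t3 : 2 * (Real.exp s * Real.exp (-(s ^ 12 / 2))) ≤ Real.exp (-s) / 4 := by
    rw [← Real.exp_add]
    exact k1 2 _ (by norm_num) (by linarith) (by nlinarith)
  have t4 : 2 * Real.exp (3 - s ^ 4 / Ap) ≤ Real.exp (-s) / 4 := by
    refine k1 2 _ (by norm_num) (by linarith) ?_
    have h6 : s ^ 3 ≤ s ^ 4 / Ap := by
      rw [le_div_iff₀ (by linarith)]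
      calc s ^ 3 * Ap ≤ s ^ 3 * s := mul_le_mul_of_nonneg_left h5 (by positivity)
        _ = s ^ 4 := by ring
    nlinarith
  linarith

/-- all numerical conditions for `t = J` large -/
theorem SL_num (Mc Ap C₁ cB κ CM C₂ : ℝ) (hMc : 1 ≤ Mc) (hAp : 1 ≤ Ap) (hC₁ : 0 ≤ C₁)
    (hκ : 0 < κ) (hκ8 : 8 * κ ≤ cB) : ∃ t₀ : ℝ, 1 ≤ t₀ ∧ ∀ t : ℝ, t₀ ≤ t →
    4 * (1 + Mc) * t ^ (-(2 * κ)) ≤ 1 ∧ 4 ≤ t ^ cB ∧ 6 * CM ≤ t ∧ 2 ≤ t ∧
    C₂ * t ^ (-cB) ≤ t ^ (-(κ / 4)) ∧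
    2 * (2 * Real.exp (1 - t ^ (κ / 2) / 3)
      + (Mc * t ^ (κ + C₁) * Real.exp (t ^ (2 * κ) - t ^ (3 * κ))
          + t ^ (C₁ + cB) * Real.exp (-(t ^ (3 * κ) / 2)))
      + Real.exp (3 - t ^ κ / Ap)) ≤ Real.exp (-t ^ (κ / 4)) := by
  have hcB : 0 < cB := by linarith
  have ts : Tendsto (fun t : ℝ => t ^ (κ / 4)) atTop atTop := tendsto_rpow_atTop (by positivity)
  have e1 := ts.eventually (SL_s Mc Ap hMc hAp)
  have hpow : ∀ q : ℝ, 0 ≤ q → ∀ᶠ t : ℝ in atTop, t ^ q ≤ Real.exp (t ^ (κ / 4)) := by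
    intro q hq
    have h1 := (tendsto_rpow_mul_exp_neg_mul_atTop_nhds_zero (q / (κ / 4)) 1 one_pos).eventually
      (Iic_mem_nhds (show (0 : ℝ) < 1 by norm_num))
    have h2 := ts.eventually h1
    filter_upwards [h2, eventually_gt_atTop (0 : ℝ)] with t h3 h4
    have h5 : (t ^ (κ / 4)) ^ (q / (κ / 4)) = t ^ q := by
      rw [← Real.rpow_mul h4.le]; congr 1; field_simp
    have h3' : (t ^ (κ / 4)) ^ (q / (κ / 4)) * Real.exp (-1 * (t ^ (κ / 4))) ≤ 1 := h3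
    rw [h5, neg_one_mul, Real.exp_neg, ← div_eq_mul_inv, div_le_one (Real.exp_pos _)] at h3'
    exact h3'
  have e2 := hpow (κ + C₁) (by linarith)
  have e3 := hpow (C₁ + cB) (by linarith)
  have e4 : ∀ᶠ t : ℝ in atTop, 4 * (1 + Mc) * t ^ (-(2 * κ)) ≤ 1 := by
    have := (tendsto_rpow_neg_atTop (show 0 < 2 * κ by positivity)).const_mul (4 * (1 + Mc))
    rw [mul_zero] at this
    exact this.eventually (Iic_mem_nhds (by norm_num))
  have e5 : ∀ᶠ t : ℝ in atTop, 4 ≤ t ^ cB := (tendsto_rpow_atTop hcB).eventually_ge_atTop 4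
  have e6 : ∀ᶠ t : ℝ in atTop, C₂ * t ^ (-cB) ≤ t ^ (-(κ / 4)) := by
    have h1 := (tendsto_rpow_neg_atTop (show 0 < cB - κ / 4 by linarith)).const_mul C₂
    rw [mul_zero] at h1
    filter_upwards [h1.eventually (Iic_mem_nhds (show (0 : ℝ) < 1 by norm_num)),
      eventually_gt_atTop (0 : ℝ)] with t h2 h3
    have h4 : t ^ (-cB) = t ^ (-(cB - κ / 4)) * t ^ (-(κ / 4)) := by
      rw [← Real.rpow_add h3]; congr 1; ring
    rw [h4, ← mul_assoc]
    have h2' : C₂ * t ^ (-(cB - κ / 4)) ≤ 1 := h2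
    calc C₂ * t ^ (-(cB - κ / 4)) * t ^ (-(κ / 4)) ≤ 1 * t ^ (-(κ / 4)) :=
          mul_le_mul_of_nonneg_right h2' (Real.rpow_nonneg h3.le _)
      _ = _ := one_mul _
  obtain ⟨t₁, ht₁⟩ := eventually_atTop.1 (e1.and (e2.and (e3.and (e4.and (e5.and e6)))))
  refine ⟨max (max t₁ (6 * CM)) 2, le_trans (by norm_num) (le_max_right _ _), fun t ht => ?_⟩
  obtain ⟨a1, a2, a3, a4, a5, a6⟩ := ht₁ t
    (le_trans (le_trans (le_max_left _ _) (le_max_left _ _)) ht)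
  have ht2 : 2 ≤ t := le_trans (le_max_right _ _) ht
  have htC : 6 * CM ≤ t := le_trans (le_trans (le_max_right _ _) (le_max_left _ _)) ht
  refine ⟨a4, a5, htC, ht2, a6, ?_⟩
  have ht0 : 0 < t := by linarith
  have p2 : t ^ (κ / 2) = (t ^ (κ / 4)) ^ 2 := by
    rw [← Real.rpow_natCast, ← Real.rpow_mul ht0.le]; congr 1; push_cast; ring
  have p4 : t ^ κ = (t ^ (κ / 4)) ^ 4 := by
    rw [← Real.rpow_natCast, ← Real.rpow_mul ht0.le]; congr 1; push_cast; ring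
  have p8 : t ^ (2 * κ) = (t ^ (κ / 4)) ^ 8 := by
    rw [← Real.rpow_natCast, ← Real.rpow_mul ht0.le]; congr 1; push_cast; ring
  have p12 : t ^ (3 * κ) = (t ^ (κ / 4)) ^ 12 := by
    rw [← Real.rpow_natCast, ← Real.rpow_mul ht0.le]; congr 1; push_cast; ring
  rw [p2, p4, p8, p12]
  set s := t ^ (κ / 4) with hs
  have b2 : Mc * t ^ (κ + C₁) * Real.exp (s ^ 8 - s ^ 12) ≤
      Mc * (Real.exp s * Real.exp (s ^ 8 - s ^ 12)) := by
    rw [mul_assoc]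
    refine mul_le_mul_of_nonneg_left ?_ (by linarith)
    exact mul_le_mul_of_nonneg_right a2 (Real.exp_pos _).le
  have b3 : t ^ (C₁ + cB) * Real.exp (-(s ^ 12 / 2)) ≤
      Real.exp s * Real.exp (-(s ^ 12 / 2)) :=
    mul_le_mul_of_nonneg_right a3 (Real.exp_pos _).le
  have a1' : 4 * Real.exp (1 - s ^ 2 / 3) + 2 * Mc * (Real.exp s * Real.exp (s ^ 8 - s ^ 12))
      + 2 * (Real.exp s * Real.exp (-(s ^ 12 / 2))) + 2 * Real.exp (3 - s ^ 4 / Ap)
      ≤ Real.exp (-s) := a1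
  linarith

end Pool.Agent.helper90.FN
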